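import Pool.Agent.MP_bd94e8_al.H89.Spec

/-!
A criterion for thin spaces of matrices, and the columns outside one vertex.
-/

set_option autoImplicit false
set_option linter.unusedSectionVars false

namespace Pool.Agent.MP_bd94e8_al.H89

open Module Function

namespace H22N

section core
variable {F Pt ι : Type} [Field F] [Fintype Pt] [DecidableEq Pt]

/-- The matching elements. -/
def Mt (vt : Pt → ι) (R : Set (Matrix Pt Pt F)) : Set (Matrix Pt Pt F) :=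
  {h | h ∈ R ∧ ∃ a b : Pt × Pt,
    vt a.1 = vt b.1 ∧ vt a.2 = vt b.2 ∧ (a.1 = b.1 ↔ a.2 = b.2) ∧ Sup2 h a b}

theorem single_of {R : Set (Matrix Pt Pt F)} (hs : ∀ (c : F), ∀ a ∈ R, c • a ∈ R)
    {h : Matrix Pt Pt F} (hh : h ∈ R) {p q : Pt} (h0 : h q p ≠ 0)
    (h1 : ∀ q' p', h q' p' ≠ 0 → q' = q ∧ p' = p) : Matrix.single q p (1 : F) ∈ R := by
  have : Matrix.single q p (1 : F) = (h q p)⁻¹ • h := by
    ext q' p'
    by_cases e : q = q' ∧ p = p'
    · obtain ⟨rfl, rfl⟩ := e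
      simp [h0]
    · rw [Matrix.single_apply_of_ne _ _ _ _ _ e]
      have : h q' p' = 0 := by
        by_contra e'
        exact e ⟨(h1 _ _ e').1.symm, (h1 _ _ e').2.symm⟩
      simp [this]
  rw [this]
  exact hs _ _ hh

/-- Data for the criterion. -/
structure Cls (vt : Pt → ι) (R : Set (Matrix Pt Pt F)) (t : Pt) {M : Type} (c : Pt → Pt → M) :
    Prop where
  zero : 0 ∈ R
  add : ∀ a ∈ R, ∀ b ∈ R, a + b ∈ R
  smul : ∀ (c : F), ∀ a ∈ R, c • a ∈ R
  mul : ∀ a ∈ R, ∀ b ∈ R, a * b ∈ R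
  diag : ∀ a ∈ R, ∀ p, a p p = 0
  row : ∀ a ∈ R, ∀ p, a t p = 0
  three : Le3 vt (vt t)
  out : ∀ r ∈ R, mask (fun _ p => vt p ≠ vt t) r ∈ AddSubmonoid.closure (Mt vt R)
  outmm : ∀ h ∈ R, ∀ a b : Pt × Pt, vt a.1 ≠ vt t → vt a.1 = vt b.1 → vt a.2 = vt b.2 →
    (a.1 = b.1 ∨ a.2 = b.2) → Sup2 h a b → h a.2 a.1 ≠ 0 → Matrix.single a.2 a.1 (1 : F) ∈ R
  part : ∀ r ∈ R, ∀ m, mask (fun q p => vt p = vt t ∧ c q p = m) r ∈ R
  cls : ∀ q p q' p', q ≠ t → q' ≠ t → vt p = vt t → vt p' = vt t → c q p = c q' p' →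
    vt q = vt q' ∧ (p = p' ↔ q = q')
  no3 : ∀ h ∈ R, ∀ x y : Fin 3 → Pt, Injective x → Injective y → (∀ s, vt (x s) = vt t) →
    (∀ s, vt (y s) = vt (y 0)) → vt (y 0) ≠ vt t → (∀ s, h (y s) (x s) ≠ 0) →
    ∃ h' ∈ R, ¬ ∃ l : F, ∀ s, h' (y s) (x s) = l * h (y s) (x s)

namespace Cls
variable {vt : Pt → ι} {R : Set (Matrix Pt Pt F)} {t : Pt} {M : Type} {c : Pt → Pt → M}

/-- The entry belongs to the class. -/
def On (vt : Pt → ι) (t : Pt) (c : Pt → Pt → M) (m : M) (a : Pt × Pt) : Prop :=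
  a.2 ≠ t ∧ vt a.1 = vt t ∧ c a.2 a.1 = m

theorem mt (H : Cls vt R t c) {m : M} {h : Matrix Pt Pt F} (hh : h ∈ R) {a b : Pt × Pt}
    (ha : On vt t c m a) (hb : On vt t c m b) (hs : Sup2 h a b) : h ∈ Mt vt R := by
  obtain ⟨h1, h2⟩ := H.cls a.2 a.1 b.2 b.1 ha.1 hb.1 ha.2.1 hb.2.1 (ha.2.2.trans hb.2.2.symm)
  exact ⟨hh, a, b, ha.2.1.trans hb.2.1.symm, h1, h2, hs⟩

theorem sub (H : Cls vt R t c) {a b : Matrix Pt Pt F} (ha : a ∈ R) (hb : b ∈ R) (x y : F) :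
    x • a - y • b ∈ R := by
  rw [sub_eq_add_neg, ← neg_smul]
  exact H.add _ (H.smul _ _ ha) _ (H.smul _ _ hb)

theorem two (H : Cls vt R t c) {m : M} {h h' : Matrix Pt Pt F} (hh : h ∈ R) (hh' : h' ∈ R)
    {A B C : Pt × Pt} (hA : On vt t c m A) (hB : On vt t c m B) (hC : On vt t c m C)
    (hs : ∀ q p, h q p ≠ 0 ∨ h' q p ≠ 0 → (p, q) = A ∨ (p, q) = B ∨ (p, q) = C)
    (hd : h B.2 B.1 * h' A.2 A.1 - h A.2 A.1 * h' B.2 B.1 ≠ 0) :
    h ∈ AddSubmonoid.closure (Mt vt R) := by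
  set d := h B.2 B.1 * h' A.2 A.1 - h A.2 A.1 * h' B.2 B.1 with hdd
  have key : ∀ (x : F) (a : Pt × Pt) q p,
      ((x * h' a.2 a.1) • h - (x * h a.2 a.1) • h') q p ≠ 0 →
      (p, q) ≠ a ∧ ((p, q) = A ∨ (p, q) = B ∨ (p, q) = C) := by
    intro x a q p e
    refine ⟨?_, hs q p ?_⟩
    · rintro rfl
      apply e
      simp only [Matrix.sub_apply, Matrix.smul_apply, smul_eq_mul]
      ring
    · by_contra e'
      push Not at e'
      apply e
      simp [e'.1, e'.2]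
  have e : h = (((h B.2 B.1 / d) * h' A.2 A.1) • h - ((h B.2 B.1 / d) * h A.2 A.1) • h') +
      (((- h A.2 A.1 / d) * h' B.2 B.1) • h - ((- h A.2 A.1 / d) * h B.2 B.1) • h') := by
    ext q p
    simp only [Matrix.sub_apply, Matrix.add_apply, Matrix.smul_apply, smul_eq_mul]
    field_simp
    rw [hdd]
    ring
  rw [e]
  refine add_mem (AddSubmonoid.subset_closure (H.mt (H.sub hh hh' _ _) hB hC fun q p e => ?_))
    (AddSubmonoid.subset_closure (H.mt (H.sub hh hh' _ _) hA hC fun q p e => ?_))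
  · obtain ⟨h1, h2⟩ := key _ A q p e
    tauto
  · obtain ⟨h1, h2⟩ := key _ B q p e
    tauto

theorem on_mask (H : Cls vt R t c) {r : Matrix Pt Pt F} (hr : r ∈ R) {m : M} {q p : Pt}
    (e : mask (fun q p => vt p = vt t ∧ c q p = m) r q p ≠ 0) : On vt t c m (p, q) := by
  obtain ⟨⟨h1, h2⟩, h3⟩ := mask_ne e
  refine ⟨?_, h1, h2⟩
  rintro rfl
  exact h3 (H.row r hr p)

theorem one (H : Cls vt R t c) {m : M} {h : Matrix Pt Pt F} (hh : h ∈ R)
    (hs : ∀ q p, h q p ≠ 0 → On vt t c m (p, q)) : h ∈ AddSubmonoid.closure (Mt vt R) := by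
  by_cases h0 : h = 0
  · rw [h0]; exact zero_mem _
  obtain ⟨qa, pa, ha⟩ : ∃ q p, h q p ≠ 0 := by
    by_contra e
    push Not at e
    exact h0 (Matrix.ext e)
  by_cases h1 : ∀ q p, h q p ≠ 0 → (p, q) = (pa, qa)
  · exact AddSubmonoid.subset_closure (H.mt hh (hs _ _ ha) (hs _ _ ha) fun q p e => Or.inl (h1 q p e))
  push Not at h1
  obtain ⟨qb, pb, hb, hab⟩ := h1
  by_cases h2 : Sup2 h (pa, qa) (pb, qb)
  · exact AddSubmonoid.subset_closure (H.mt hh (hs _ _ ha) (hs _ _ hb) h2)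
  unfold Sup2 at h2
  push Not at h2
  obtain ⟨qc, pc, hc, hac, hbc⟩ := h2
  have cl : ∀ {q p q' p'}, On vt t c m (p, q) → On vt t c m (p', q') →
      vt q = vt q' ∧ (p = p' ↔ q = q') := fun h h' =>
    H.cls _ _ _ _ h.1 h'.1 h.2.1 h'.2.1 (h.2.2.trans h'.2.2.symm)
  have ne : ∀ {q p q' p'}, On vt t c m (p, q) → On vt t c m (p', q') → (p, q) ≠ (p', q') →
      p ≠ p' ∧ q ≠ q' := fun h h' e =>
    ⟨fun e' => e (Prod.ext e' ((cl h h').2.1 e')), fun e' => e (Prod.ext ((cl h h').2.2 e') e')⟩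
  have oa := hs _ _ ha
  have ob := hs _ _ hb
  have oc := hs _ _ hc
  obtain ⟨p1, q1⟩ := ne ob oa hab
  obtain ⟨p2, q2⟩ := ne oc oa hac
  obtain ⟨p3, q3⟩ := ne oc ob hbc
  have all : ∀ q p, On vt t c m (p, q) → (p, q) = (pa, qa) ∨ (p, q) = (pb, qb) ∨
      (p, q) = (pc, qc) := by
    intro q p o
    by_contra e
    push Not at e
    have := H.three p pa pb pc o.2.1 oa.2.1 ob.2.1 oc.2.1
    have h1 := (ne o oa e.1).1
    have h2 := (ne o ob e.2.1).1
    have h3 := (ne o oc e.2.2).1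
    have := p1.symm
    have := p2.symm
    have := p3.symm
    tauto
  have hj : vt qa ≠ vt t := by
    intro e
    have := H.three t qa qb qc rfl e ((cl ob oa).1.trans e) ((cl oc oa).1.trans e)
    have h1 : t ≠ qa := Ne.symm oa.1
    have h2 : t ≠ qb := Ne.symm ob.1
    have h3 : t ≠ qc := Ne.symm oc.1
    have := q1.symm
    have := q2.symm
    have := q3.symm
    tauto
  have inj3 : ∀ {x y z : Pt}, y ≠ x → z ≠ x → z ≠ y → Injective ![x, y, z] := by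
    intro x y z h1 h2 h3 s s' e
    fin_cases s <;> fin_cases s' <;> simp_all
  obtain ⟨h', hh', hn⟩ := H.no3 h hh ![pa, pb, pc] ![qa, qb, qc] (inj3 p1 p2 p3) (inj3 q1 q2 q3)
    (fun s => by fin_cases s; exacts [oa.2.1, ob.2.1, oc.2.1])
    (fun s => by fin_cases s; exacts [rfl, (cl ob oa).1, (cl oc oa).1]) hj
    (fun s => by fin_cases s; exacts [ha, hb, hc])
  set w := mask (fun q p => vt p = vt t ∧ c q p = m) h' with hw
  have ew : ∀ {q p}, On vt t c m (p, q) → w q p = h' q p := fun o => mask_pos _ o.2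
  have hs' : ∀ q p, h q p ≠ 0 ∨ w q p ≠ 0 → (p, q) = (pa, qa) ∨ (p, q) = (pb, qb) ∨
      (p, q) = (pc, qc) := fun q p e => all q p (e.elim (hs q p) (H.on_mask hh'))
  by_cases d1 : h qb pb * w qa pa - h qa pa * w qb pb = 0
  · by_cases d2 : h qc pc * w qa pa - h qa pa * w qc pc = 0
    · exfalso
      rw [ew oa, ew ob] at d1
      rw [ew oa, ew oc] at d2
      refine hn ⟨h' qa pa / h qa pa, fun s => ?_⟩
      fin_cases s
      · change h' qa pa = _ * h qa pa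
        field_simp
      · change h' qb pb = _ * h qb pb
        field_simp
        linear_combination -d1
      · change h' qc pc = _ * h qc pc
        field_simp
        linear_combination -d2
    · exact H.two hh (H.part h' hh' m) oa oc ob (fun q p e => by have := hs' q p e; tauto) d2
  · exact H.two hh (H.part h' hh' m) oa ob oc hs' d1

theorem thin [Fintype M] (H : Cls vt R t c) : Thin vt R where
  zero := H.zero
  add := H.add
  smul := H.smul
  mul := H.mul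
  diag := H.diag
  span r hr := by
    have e : r = mask (fun _ p => vt p ≠ vt t) r +
        ∑ m, mask (fun q p => vt p = vt t ∧ c q p = m) r := by
      ext q p
      rw [Matrix.add_apply, Matrix.sum_apply]
      by_cases e : vt p = vt t
      · rw [mask_neg _ (not_not.2 e), zero_add, Finset.sum_eq_single (c q p)
          (fun m _ hm => mask_neg _ fun h => hm h.2.symm) (by simp), mask_pos _ ⟨e, rfl⟩]
      · rw [mask_pos _ e, Finset.sum_eq_zero fun m _ => mask_neg _ fun h => e h.1, add_zero]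
    rw [e]
    exact add_mem (H.out r hr) (sum_mem fun m _ => H.one (H.part r hr m) fun q p => H.on_mask hr)
  mm h hh a b h1 h2 h3 h4 h5 := by
    by_cases e : vt a.1 = vt t
    · have ha : a.2 ≠ t := by
        intro e'
        rw [e'] at h5
        exact h5 (H.row h hh _)
      refine single_of H.smul (H.part h hh (c a.2 a.1)) (by rwa [mask_pos _ ⟨e, rfl⟩])
        fun q p e' => ?_
      have o := H.on_mask hh e'
      obtain rfl | rfl := h4 q p (mask_ne e').2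
      · exact ⟨rfl, rfl⟩
      · have := (H.cls _ _ _ _ o.1 ha o.2.1 e o.2.2).2
        rcases h3 with h3 | h3
        · exact ⟨this.1 h3.symm, h3.symm⟩
        · exact ⟨h3.symm, this.2 h3.symm⟩
    · exact H.outmm h hh a b e h1 h2 h3 h4 h5

end Cls

end core

section outer
variable {k F : Type} [Field k] [Field F] [Algebra k F] {Pt ι : Type} [Fintype Pt]
  [DecidableEq Pt]

/-- Extension by zero, without the columns at the vertex of `t`. -/
noncomputable def ext (vt : Pt → ι) (t : Pt) :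
    Matrix {p // p ≠ t} {p // p ≠ t} F →+ Matrix Pt Pt F := by
  classical
  exact
  { toFun := fun h => Matrix.of fun q p =>
      if e : q ≠ t ∧ vt p ≠ vt t then h ⟨q, e.1⟩ ⟨p, fun e' => e.2 (congrArg vt e')⟩ else 0
    map_zero' := by ext q p; simp
    map_add' := fun a b => by
      ext q p
      by_cases e : q ≠ t ∧ vt p ≠ vt t
      · simp only [Matrix.of_apply, Matrix.add_apply, dif_pos e]
      · simp only [Matrix.of_apply, Matrix.add_apply, dif_neg e, add_zero] }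

theorem ext_pos (vt : Pt → ι) (t : Pt) (h : Matrix {p // p ≠ t} {p // p ≠ t} F)
    (q p : {p // p ≠ t}) (e : vt p.1 ≠ vt t) : ext vt t h q.1 p.1 = h q p := by
  simp only [ext, AddMonoidHom.coe_mk, ZeroHom.coe_mk, Matrix.of_apply]
  rw [dif_pos ⟨q.2, e⟩]

theorem ext_ne {vt : Pt → ι} {t : Pt} {h : Matrix {p // p ≠ t} {p // p ≠ t} F} {q p : Pt}
    (e : ext vt t h q p ≠ 0) :
    ∃ (hq : q ≠ t) (hp : p ≠ t), vt p ≠ vt t ∧ h ⟨q, hq⟩ ⟨p, hp⟩ ≠ 0 := by
  simp only [ext, AddMonoidHom.coe_mk, ZeroHom.coe_mk, Matrix.of_apply] at e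
  split_ifs at e with e'
  · exact ⟨e'.1, _, e'.2, e⟩
  · exact (e rfl).elim

variable {Q : Prob k F Pt ι Unit} {t : Pt}

theorem row_zero (h0 : ∀ p, ¬ Q.Ar p t) {b : Matrix Pt Pt F} (hb : b ∈ Q.B) {p : Pt} (hp : p ≠ t) :
    b t p = 0 := by
  by_contra e
  exact h0 p ⟨hp, b, hb, e⟩

theorem row_zero0 (h0 : ∀ p, ¬ Q.Ar p t) {b : Matrix Pt Pt F} (hb : b ∈ Q.R0) (p : Pt) :
    b t p = 0 := by
  by_cases e : p = t
  · rw [e]; exact hb.2 t
  · exact row_zero h0 hb.1 e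

theorem mul_e (Q : Prob k F Pt ι Unit) (b : Matrix Pt Pt F) (i : ι) :
    b * Q.e i = mask (fun _ p => Q.vt p = i) b := by
  ext q p
  rw [Matrix.mul_apply, Finset.sum_eq_single p (fun x _ hx => by rw [Q.e_off i hx, mul_zero])
    (by simp)]
  by_cases e : Q.vt p = i
  · rw [Q.e_pos _ e, mask_apply, if_pos e]; simp
  · rw [Q.e_neg _ e, mask_apply, if_neg e, mul_zero]

theorem out_mem {b : Matrix Pt Pt F} (hb : b ∈ Q.B) (i : ι) :
    mask (fun _ p => Q.vt p ≠ i) b ∈ Q.B := by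
  have : mask (fun _ p => Q.vt p ≠ i) b = b - b * Q.e i := by
    rw [mul_e]
    ext q p
    by_cases e : Q.vt p = i
    · simp [mask_apply, e]
    · simp [mask_apply, e]
  rw [this]
  exact Q.B.sub_mem hb (Q.B.mul_mem hb (Q.e_mem i))

theorem ext_sub (h0 : ∀ p, ¬ Q.Ar p t) {b : Matrix Pt Pt F} (hb : b ∈ Q.B) :
    ext Q.vt t (b.submatrix Subtype.val Subtype.val) = mask (fun _ p => Q.vt p ≠ Q.vt t) b := by
  ext q p
  by_cases e : Q.vt p = Q.vt t
  · rw [mask_neg _ (not_not.2 e)]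
    by_contra e'
    obtain ⟨_, _, h, -⟩ := ext_ne e'
    exact h e
  · have hp : p ≠ t := fun e' => e (congrArg Q.vt e')
    rw [mask_pos _ e]
    by_cases hq : q = t
    · rw [hq, row_zero h0 hb hp]
      by_contra e'
      obtain ⟨h, -⟩ := ext_ne e'
      exact h rfl
    · exact ext_pos Q.vt t _ ⟨q, hq⟩ ⟨p, hp⟩ e

theorem ext_mem (h0 : ∀ p, ¬ Q.Ar p t) (h : SubOk Q fun p => p ≠ t)
    {b : Matrix {p // p ≠ t} {p // p ≠ t} F} (hb : b ∈ (Q.sub (fun p => p ≠ t) h).R0) :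
    ext Q.vt t b ∈ Q.R0 := by
  refine ⟨?_, fun p => ?_⟩
  · obtain ⟨⟨b, hb, rfl⟩, -⟩ := hb
    rw [ext_sub h0 hb]
    exact out_mem hb _
  · by_contra e
    obtain ⟨_, _, -, e'⟩ := ext_ne e
    exact e' (hb.2 _)

theorem sub_mem (h : SubOk Q fun p => p ≠ t) {b : Matrix Pt Pt F} (hb : b ∈ Q.R0) :
    b.submatrix Subtype.val Subtype.val ∈ (Q.sub (fun p => p ≠ t) h).R0 :=
  ⟨⟨b, hb.1, rfl⟩, fun p => hb.2 p.1⟩

theorem mask_out {vt : Pt → ι} {i : ι} {b : Matrix Pt Pt F} (hb : ∀ q p, b q p ≠ 0 → vt p ≠ i) :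
    mask (fun _ p => vt p ≠ i) b = b := by
  ext q p
  by_cases e : vt p = i
  · rw [mask_neg _ (not_not.2 e)]
    by_contra e'
    exact hb q p (Ne.symm e') e
  · exact mask_pos _ e

theorem outer_span (h0 : ∀ p, ¬ Q.Ar p t) (h : SubOk Q fun p => p ≠ t)
    (hT : Thin (Q.sub (fun p => p ≠ t) h).vt (Q.sub (fun p => p ≠ t) h).R0)
    {R : Set (Matrix Pt Pt F)}
    (hR : ∀ b ∈ Q.R0, (∀ q p, b q p ≠ 0 → Q.vt p ≠ Q.vt t) → b ∈ R)
    {r : Matrix Pt Pt F} (hr : r ∈ Q.R0) (ho : ∀ q p, r q p ≠ 0 → Q.vt p ≠ Q.vt t) :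
    r ∈ AddSubmonoid.closure (Mt Q.vt R) := by
  rw [← mask_out ho, ← ext_sub h0 hr.1]
  have := hT.span _ (sub_mem h hr)
  generalize r.submatrix (Subtype.val : {p // p ≠ t} → Pt) (Subtype.val : {p // p ≠ t} → Pt) = x
    at this
  induction this using AddSubmonoid.closure_induction with
  | zero => rw [map_zero]; exact zero_mem _
  | add x y _ _ hx hy => rw [map_add]; exact add_mem hx hy
  | mem x hx =>
    obtain ⟨hx, a, b, h1, h2, h3, h4⟩ := hx
    refine AddSubmonoid.subset_closure ⟨hR _ (ext_mem h0 h hx) fun q p e => ?_,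
      (a.1.1, a.2.1), (b.1.1, b.2.1), h1, h2, by simpa only [Subtype.ext_iff] using h3,
      fun q p e => ?_⟩
    · obtain ⟨_, _, e', -⟩ := ext_ne e
      exact e'
    · obtain ⟨_, _, -, e'⟩ := ext_ne e
      obtain rfl | rfl := h4 _ _ e'
      · exact Or.inl rfl
      · exact Or.inr rfl

theorem outer_mm (h0 : ∀ p, ¬ Q.Ar p t) (h : SubOk Q fun p => p ≠ t)
    (hT : Thin (Q.sub (fun p => p ≠ t) h).vt (Q.sub (fun p => p ≠ t) h).R0)
    {r : Matrix Pt Pt F} (hr : r ∈ Q.R0) (a b : Pt × Pt) (e : Q.vt a.1 ≠ Q.vt t)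
    (h1 : Q.vt a.1 = Q.vt b.1) (h2 : Q.vt a.2 = Q.vt b.2) (h3 : a.1 = b.1 ∨ a.2 = b.2)
    (h4 : Sup2 r a b) (h5 : r a.2 a.1 ≠ 0) : Matrix.single a.2 a.1 (1 : F) ∈ Q.R0 := by
  have a1 : a.1 ≠ t := fun e' => e (congrArg Q.vt e')
  have b1 : b.1 ≠ t := fun e' => e (h1.trans (congrArg Q.vt e'))
  have a2 : a.2 ≠ t := by
    intro e'
    rw [e'] at h5
    exact h5 (row_zero0 h0 hr _)
  have key : Matrix.single (⟨a.2, a2⟩ : {p // p ≠ t}) (⟨a.1, a1⟩ : {p // p ≠ t}) (1 : F) ∈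
      (Q.sub (fun p => p ≠ t) h).R0 := by
    by_cases b2 : b.2 = t
    · refine hT.mm _ (sub_mem h hr) (⟨a.1, a1⟩, ⟨a.2, a2⟩) (⟨a.1, a1⟩, ⟨a.2, a2⟩) rfl rfl
        (Or.inl rfl) (fun q p e' => ?_) h5
      obtain rfl | rfl := h4 _ _ e'
      · exact Or.inl rfl
      · exact (q.2 b2).elim
    · refine hT.mm _ (sub_mem h hr) (⟨a.1, a1⟩, ⟨a.2, a2⟩) (⟨b.1, b1⟩, ⟨b.2, b2⟩) h1 h2
        (by simpa only [Subtype.ext_iff] using h3) (fun q p e' => ?_) h5
      obtain rfl | rfl := h4 _ _ e'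
      · exact Or.inl rfl
      · exact Or.inr rfl
  have := ext_mem h0 h key
  convert this using 1
  ext q p
  by_cases e' : a.2 = q ∧ a.1 = p
  · obtain ⟨rfl, rfl⟩ := e'
    rw [ext_pos Q.vt t _ ⟨a.2, a2⟩ ⟨a.1, a1⟩ e]
    simp
  · rw [Matrix.single_apply_of_ne _ _ _ _ _ e']
    by_contra e2
    obtain ⟨_, _, -, e3⟩ := ext_ne (Ne.symm e2)
    exact e3 (Matrix.single_apply_of_ne _ _ _ _ _ (by simpa only [Subtype.ext_iff] using e'))

end outer

end H22N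

end Pool.Agent.MP_bd94e8_al.H89
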