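import Pool.Agent.MP_bd94e8_al.H22N.Core

/-!
The fine projections on the rows at the vertex of a source.
-/

set_option autoImplicit false
set_option linter.unusedSectionVars false

namespace Pool.Agent.MP_bd94e8_al.H89

open Module Function Matrix

namespace H22N

variable {k F : Type} [Field k] [Field F] [Algebra k F] {Pt ι : Type} [Fintype Pt]
  [DecidableEq Pt]

/-- A system of fine projections. -/
structure Fine (Q : Prob k F Pt ι Unit) (t : Pt) {Λ M T : Type} [Fintype Λ]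
    (p : Λ → Matrix Pt Pt F) (π : T → Pt) (lab : T → Λ) (grp : T → M) : Prop where
  left : ∀ l, Q.e (Q.vt t) * p l = p l
  right : ∀ l, p l * Q.e (Q.vt t) = p l
  orth : ∀ l l', l ≠ l' → p l * p l' = 0
  sum : ∑ l, p l = Q.e (Q.vt t)
  vt : ∀ x y, grp x = grp y → Q.vt (π x) = Q.vt (π y)
  inj : ∀ x y, grp x = grp y → π x = π y → x = y
  dist : ∀ x y, grp x = grp y → lab x = lab y → x = y
  uniq : ∀ x y, π x = π y → lab x = lab y → x = y
  lift : ∀ q l, q ≠ t → p l ≠ 0 → ∃ x, π x = q ∧ lab x = l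
  part : ∀ r ∈ Q.R0, ∀ m, ∃ r' ∈ Q.R0, (∀ x, grp x = m → r' (π x) = (r * p (lab x)) (π x)) ∧
    ∀ q, (∀ x, grp x = m → π x ≠ q) → r' q = 0
  scal : ∀ y ∈ Q.B, ∀ l, ∃ c : F, p l * y * p l = c • p l

theorem exists_mat (f : (Pt → F) →ₗ[F] (Pt → F)) : ∃ m : Matrix Pt Pt F, ∀ x, x ᵥ* m = f x :=
  ⟨LinearMap.toMatrixRight' f, fun x => by
    rw [← Matrix.toLinearMapRight'_apply]
    exact LinearMap.congr_fun (LinearMap.toMatrixRight'.symm_apply_apply f) x⟩

theorem e_mul_e (Q : Prob k F Pt ι Unit) (i : ι) : Q.e i * Q.e i = Q.e i := by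
  rw [mul_e]
  ext q p
  by_cases e : Q.vt p = i
  · rw [mask_apply, if_pos e]
  · rw [mask_apply, if_neg e, Q.e_neg _ e]

theorem eps_idem {T I O : Type} [Fintype T] [DecidableEq T] [Fintype O] {J : Prob k F T I O}
    {V : Type} [AddCommGroup V] [Module F V] (N : Obj J V) (o : O) (v : V) :
    N.ε o (N.ε o v) = N.ε o v := by
  have := LinearMap.congr_fun N.sum (N.ε o v)
  rw [LinearMap.sum_apply, Finset.sum_eq_single (f := fun d => N.ε d (N.ε o v)) o
    (fun o' _ h => LinearMap.congr_fun (N.orth o' o h) v) (by simp)] at this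
  exact this

theorem diag_mem [Fintype ι] {Q : Prob k F Pt ι Unit}
    (hsm : ∀ (c : F), ∀ b ∈ Q.R0, c • b ∈ Q.R0)
    (hmul : ∀ b ∈ Q.R0, ∀ b' ∈ Q.B, b * b' ∈ Q.R0 ∧ b' * b ∈ Q.R0) (c : ι → F)
    {r : Matrix Pt Pt F} (hr : r ∈ Q.R0) : Matrix.diagonal (fun p => c (Q.vt p)) * r ∈ Q.R0 := by
  refine ⟨?_, fun p => by rw [Matrix.diagonal_mul, hr.2, mul_zero]⟩
  have : Matrix.diagonal (fun p => c (Q.vt p)) * r = ∑ j, c j • (Q.e j * r) := by
    have : Matrix.diagonal (fun p => c (Q.vt p)) = ∑ j, c j • Q.e j := by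
      ext q p
      rw [Matrix.sum_apply, Finset.sum_eq_single (Q.vt p)
        (fun j _ hj => by rw [Matrix.smul_apply, Q.e_neg _ hj.symm, smul_zero]) (by simp),
        Matrix.smul_apply, Q.e_pos _ rfl]
      by_cases e : q = p
      · subst e; simp
      · simp [e]
    rw [this, Finset.sum_mul]
    simp only [Matrix.smul_mul]
  rw [this]
  exact Q.B.sum_mem fun j _ => (hsm _ _ (hmul r hr _ (Q.e_mem j)).2).1

/-- The rows at the vertex of `t` as an object of the untwisted problem. -/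
noncomputable def rows [Fintype ι] (Q : Prob k F Pt ι Unit) (t : Pt) (h0 : ∀ p, ¬ Q.Ar p t)
    (h : SubOk Q fun p => p ≠ t) (Qu : Prob k F {p // p ≠ t} ι Unit)
    (hu : IsUntw (Q.sub (fun p => p ≠ t) h) Qu) (hsm : ∀ (c : F), ∀ b ∈ Q.R0, c • b ∈ Q.R0)
    (hmul : ∀ b ∈ Q.R0, ∀ b' ∈ Q.B, b * b' ∈ Q.R0 ∧ b' * b ∈ Q.R0)
    {V : Type} [AddCommGroup V] [Module F V] (res : (Pt → F) →ₗ[F] V) : Obj Qu V where
  ε _ := LinearMap.id
  orth o o' h := (h rfl).elim
  sum := by simp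
  U :=
    { carrier := {u | ∃ r ∈ Q.R0, ∀ q, u q = res (r q.1)}
      add_mem' := by
        rintro u u' ⟨r, hr, e⟩ ⟨r', hr', e'⟩
        refine ⟨r + r', ⟨Q.B.add_mem hr.1 hr'.1, fun p => by simp [hr.2 p, hr'.2 p]⟩, fun q => ?_⟩
        rw [Pi.add_apply, e, e', ← map_add]
        rfl
      zero_mem' := ⟨0, ⟨Q.B.zero_mem, fun _ => rfl⟩, fun q => (map_zero res).symm⟩
      neg_mem' := by
        rintro u ⟨r, hr, e⟩
        refine ⟨-r, ⟨Q.B.neg_mem hr.1, fun p => by simp [hr.2 p]⟩, fun q => ?_⟩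
        rw [Pi.neg_apply, e, ← map_neg]
        rfl }
  peak _ _ _ := rfl
  stab := by
    rintro b hb u ⟨r, hr, e⟩
    obtain ⟨c, ⟨r1, hr1, e1⟩, -⟩ := (hu.2 b).1 hb
    have hm : (Matrix.diagonal (fun p => c (Q.vt p)) + r1) * r ∈ Q.R0 := by
      have h1 := diag_mem hsm hmul c hr
      have h2 := (hmul r hr r1 hr1).2
      rw [Matrix.add_mul]
      exact ⟨Q.B.add_mem h1.1 h2.1, fun p => by rw [Matrix.add_apply, h1.2, h2.2, add_zero]⟩
    refine ⟨_, hm, fun q => ?_⟩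
    have e2 : ∀ p : {p // p ≠ t},
        b q p = (Matrix.diagonal (fun p => c (Q.vt p)) + r1) q.1 p.1 := by
      intro p
      have := congrFun (congrFun e1 q) p
      rw [Matrix.submatrix_apply, Matrix.sub_apply] at this
      rw [Matrix.add_apply, this]
      by_cases e : q = p
      · subst e
        simp only [Matrix.diagonal_apply_eq]
        exact (add_sub_cancel _ _).symm
      · rw [Matrix.diagonal_apply_ne _ e, Matrix.diagonal_apply_ne _ fun h => e (Subtype.ext h)]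
        simp
    simp only [act, e, e2, ← map_smul, ← map_sum]
    congr 1
    ext p
    rw [Matrix.mul_apply, Fintype.sum_eq_add_sum_subtype_ne _ t, row_zero0 h0 hr, mul_zero,
      zero_add, Finset.sum_apply]
    rfl

theorem exists_fine [Fintype ι] (hDec : SDec) (hPush : SPush) (Q : Prob k F Pt ι Unit) (t : Pt)
    (h0 : ∀ p, ¬ Q.Ar p t) (h : SubOk Q fun p => p ≠ t) (Qu : Prob k F {p // p ≠ t} ι Unit) (L : ℕ)
    (hu : IsUntw (Q.sub (fun p => p ≠ t) h) Qu) (hDG : DG Qu L)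
    (hsm : ∀ (c : F), ∀ b ∈ Q.R0, c • b ∈ Q.R0)
    (hmul : ∀ b ∈ Q.R0, ∀ b' ∈ Q.B, b * b' ∈ Q.R0 ∧ b' * b ∈ Q.R0) :
    ∃ (Λ M T : Type) (_ : Fintype Λ) (_ : Fintype M) (p : Λ → Matrix Pt Pt F) (π : T → Pt)
      (lab : T → Λ) (grp : T → M), Fine Q t p π lab grp := by
  classical
  set E := Q.e (Q.vt t) with hE
  let V := LinearMap.range (Matrix.vecMulLinear E)
  let res : (Pt → F) →ₗ[F] V := (Matrix.vecMulLinear E).rangeRestrict
  have r1 : ∀ x, (res x : Pt → F) = x ᵥ* E := fun _ => rfl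
  have r2 : ∀ x, res (x ᵥ* E) = res x := fun x =>
    Subtype.ext (by rw [r1, r1, Matrix.vecMul_vecMul, e_mul_e])
  have r3 : ∀ v : V, res v = v := by
    rintro ⟨_, x, rfl⟩
    exact r2 x
  let M0 := rows Q t h0 h Qu hu hsm hmul res
  have mU : ∀ u, u ∈ M0.U ↔ ∃ r ∈ Q.R0, ∀ q, u q = res (r q.1) := fun _ => Iff.rfl
  obtain ⟨n, e, he, idem, orth, sum, ind⟩ := hDec k F _ ι Unit Qu V M0
  choose T I O iT dT iI iO J π ρ N cov thin _ push nice using
    fun s => hDG _ (M0.smd (e s) (he s)) (ind s)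
  let lin : (Σ s, O s) → V →ₗ[F] V := fun l =>
    (LinearMap.range (e l.1)).subtype ∘ₗ (N l.1).ε l.2 ∘ₗ (e l.1).rangeRestrict
  have lin1 : ∀ s o v, lin ⟨s, o⟩ v = ((N s).ε o ((e s).rangeRestrict v) : V) := fun _ _ _ => rfl
  have rr : ∀ s (w : LinearMap.range (e s)), (e s).rangeRestrict (w : V) = w := by
    rintro s ⟨_, x, rfl⟩
    exact Subtype.ext (LinearMap.congr_fun (idem s) x)
  have rr' : ∀ s s', s ≠ s' → ∀ w : LinearMap.range (e s'), (e s).rangeRestrict (w : V) = 0 := by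
    rintro s s' hs ⟨_, x, rfl⟩
    exact Subtype.ext (LinearMap.congr_fun (orth s s' hs) x)
  choose p hp using fun l => exists_mat (V.subtype ∘ₗ lin l ∘ₗ res)
  replace hp : ∀ l x, x ᵥ* p l = (lin l (res x) : V) := hp
  have vt1 : ∀ q : {p // p ≠ t}, Qu.vt q = Q.vt q.1 := fun q => congrFun hu.1 q
  refine ⟨Σ s, O s, Σ s, I s, Σ s, T s, inferInstance, inferInstance, p, fun x => (π x.1 x.2).1,
    fun x => ⟨x.1, (J x.1).pk x.2⟩, fun x => ⟨x.1, (J x.1).vt x.2⟩,
    fun l => ?_, fun l => ?_, ?_, ?_, ?_, ?_, ?_, ?_, ?_, ?_, ?_⟩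
  · refine Matrix.ext_iff_vecMul.2 fun x => ?_
    rw [← Matrix.vecMul_vecMul, hp, hp, r2]
  · refine Matrix.ext_iff_vecMul.2 fun x => ?_
    rw [← Matrix.vecMul_vecMul, hp, ← r1, r3]
  · rintro ⟨s, o⟩ ⟨s', o'⟩ hl
    refine Matrix.ext_iff_vecMul.2 fun x => ?_
    rw [← Matrix.vecMul_vecMul, hp, hp, r3, Matrix.vecMul_zero, lin1, lin1]
    by_cases hs : s' = s
    · subst hs
      have ho : o' ≠ o := fun e => hl (by rw [e])
      rw [rr, show (N s').ε o' ((N s').ε o _) = 0 from LinearMap.congr_fun ((N s').orth o' o ho) _]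
      rfl
    · rw [rr' s' s hs, map_zero]
      rfl
  · refine Matrix.ext_iff_vecMul.2 fun x => ?_
    rw [Matrix.vecMul_sum, ← r1]
    simp only [hp]
    rw [← Submodule.coe_sum, Fintype.sum_sigma]
    congr 1
    have := LinearMap.congr_fun sum (res x)
    rw [LinearMap.sum_apply, LinearMap.id_apply] at this
    rw [← this]
    refine Finset.sum_congr rfl fun s _ => ?_
    simp only [lin1]
    rw [← Submodule.coe_sum, ← LinearMap.sum_apply, (N s).sum, this]
    rfl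
  · rintro ⟨s, x⟩ ⟨s', y⟩ hg
    obtain rfl : s = s' := congrArg Sigma.fst hg
    simp only [Sigma.mk.injEq, heq_eq_eq, true_and] at hg
    have := (cov s).vt_eq x y hg
    rwa [vt1, vt1] at this
  · rintro ⟨s, x⟩ ⟨s', y⟩ hg hπ
    obtain rfl : s = s' := congrArg Sigma.fst hg
    simp only [Sigma.mk.injEq, heq_eq_eq, true_and] at hg
    rw [(cov s).inj x y hg (Subtype.ext hπ)]
  · rintro ⟨s, x⟩ ⟨s', y⟩ hg hl
    obtain rfl : s = s' := congrArg Sigma.fst hg
    simp only [Sigma.mk.injEq, heq_eq_eq, true_and] at hg hl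
    rw [(thin s).dist x y hg hl]
  · rintro ⟨s, x⟩ ⟨s', y⟩ hπ hl
    obtain rfl : s = s' := congrArg Sigma.fst hl
    simp only [Sigma.mk.injEq, heq_eq_eq, true_and] at hl
    rw [(cov s).uniq x y (Subtype.ext hπ) hl]
  · rintro q ⟨s, o⟩ hq hl
    have : (N s).ε o ≠ 0 := by
      intro e0
      refine hl (Matrix.ext_iff_vecMul.2 fun x => ?_)
      rw [hp, lin1, e0, Matrix.vecMul_zero]
      rfl
    obtain ⟨x, h1, h2⟩ := (push s).lift ⟨q, hq⟩ o this rfl
    exact ⟨⟨s, x⟩, congrArg Subtype.val h1, by rw [h2]⟩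
  · rintro r hr ⟨s, j⟩
    have u0 : (fun q : {p // p ≠ t} => res (r q.1)) ∈ M0.U := ⟨r, hr, fun _ => rfl⟩
    have u1 : (fun q : {p // p ≠ t} => (e s).rangeRestrict (res (r q.1))) ∈
        (M0.smd (e s) (he s)).U := (he s).2 _ u0
    have u2 := (push s).up _ u1
    let w : {p // p ≠ t} → LinearMap.range (e s) := fun q =>
      if hx : ∃ x, (J s).vt x = j ∧ π s x = q then
        (N s).ε ((J s).pk hx.choose) ((e s).rangeRestrict (res (r q.1))) else 0
    have w1 : ∀ x, (J s).vt x = j →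
        w (π s x) = (N s).ε ((J s).pk x) ((e s).rangeRestrict (res (r (π s x).1))) := by
      intro x hx
      have hx' : ∃ y, (J s).vt y = j ∧ π s y = π s x := ⟨x, hx, rfl⟩
      simp only [w, dif_pos hx']
      rw [(cov s).inj _ x (hx'.choose_spec.1.trans hx.symm) hx'.choose_spec.2]
    have w2 : ∀ q, (∀ x, (J s).vt x = j → π s x ≠ q) → w q = 0 := by
      intro q hq
      exact dif_neg fun ⟨x, h1, h2⟩ => hq x h1 h2
    obtain ⟨r', hr', e'⟩ : (fun q => (w q : V)) ∈ M0.U := (push s).down _ u2 j w w1 w2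
    have hr2 := (hmul r' hr' E (Q.e_mem _)).1
    have e2 : ∀ q : {p // p ≠ t}, (r' * E) q.1 = ((w q : V) : Pt → F) := by
      intro q
      rw [Matrix.mul_apply_eq_vecMul, ← r1, ← e' q]
    refine ⟨r' * E, hr2, ?_, fun q hq => ?_⟩
    · rintro ⟨s', x⟩ hg
      obtain rfl : s' = s := congrArg Sigma.fst hg
      simp only [Sigma.mk.injEq, heq_eq_eq, true_and] at hg
      rw [e2, w1 x hg, Matrix.mul_apply_eq_vecMul, hp, lin1]
    · by_cases hq' : q = t
      · rw [hq']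
        exact funext (row_zero0 h0 hr2)
      · rw [e2 ⟨q, hq'⟩, w2 _ fun x hx e => hq ⟨s, x⟩ (by rw [hx]) (congrArg Subtype.val e)]
        rfl
  · rintro y hy ⟨s, o⟩
    let Y : V →ₗ[F] V := res ∘ₗ Matrix.vecMulLinear y ∘ₗ V.subtype
    have Y1 : ∀ v : V, Y v = res ((v : Pt → F) ᵥ* y) := fun _ => rfl
    have hY : ∀ u ∈ M0.U, (fun q => Y (u q)) ∈ M0.U := by
      rintro u ⟨r, hr, e⟩
      refine ⟨r * (E * y), (hmul r hr _ (Q.B.mul_mem (Q.e_mem _) hy)).1, fun q => ?_⟩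
      beta_reduce
      rw [Y1, e, r1, Matrix.vecMul_vecMul, Matrix.mul_apply_eq_vecMul]
    let g : LinearMap.range (e s) →ₗ[F] LinearMap.range (e s) :=
      (e s).rangeRestrict ∘ₗ Y ∘ₗ (LinearMap.range (e s)).subtype
    have hg : (M0.smd (e s) (he s)).IsHom (M0.smd (e s) (he s)) g :=
      ⟨fun _ => rfl, fun u hu => (he s).2 _ (hY _ hu)⟩
    obtain ⟨c, hc⟩ := (nice s).1 _
      ((hPush k F _ ι Unit Qu _ _ _ (J s) (π s) (ρ s) _ (N s) _ (cov s) (push s)).2.1 g hg)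
    have key : ∀ v, (N s).ε o (g ((N s).ε o v)) = c • (N s).ε o v := by
      intro v
      have := congrArg ((N s).ε o) (LinearMap.congr_fun hc ((N s).ε o v))
      rw [LinearMap.sum_apply, Finset.sum_eq_single o (fun o' _ h => by
        rw [LinearMap.comp_apply, LinearMap.comp_apply,
          show (N s).ε o' ((N s).ε o v) = 0 from LinearMap.congr_fun ((N s).orth o' o h) v,
          map_zero, map_zero]) (by simp)] at this
      simpa only [LinearMap.comp_apply, eps_idem, LinearMap.smul_apply, LinearMap.id_apply,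
        map_smul] using this
    refine ⟨c, Matrix.ext_iff_vecMul.2 fun x => ?_⟩
    rw [← Matrix.vecMul_vecMul, ← Matrix.vecMul_vecMul, hp, hp, ← Y1, Matrix.vecMul_smul, hp, lin1,
      lin1]
    exact congrArg (fun v : LinearMap.range (e s) => ((v : V) : Pt → F)) (key _)

end H22N

end Pool.Agent.MP_bd94e8_al.H89
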