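import Pool.Agent.MP_bd94e8_al.H89.Spec

/-!
Connections give positive tests.
-/

set_option autoImplicit false
set_option linter.unusedSectionVars false

namespace Pool.Agent.MP_bd94e8_al.H89

open Module Function H83 H83.H

namespace Rig2A

theorem len_lt {C0 k P W : Type} [CommRing C0] [IsArtinianRing C0] [Field k] [Algebra C0 k]
    [AddCommGroup P] [Module k P] [Module C0 P] [IsScalarTower C0 k P] [Module.Finite k P]
    [AddCommGroup W] [Module k W] [Module C0 W] [IsScalarTower C0 k W] [Module.Finite k W]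
    [Module.Finite C0 W] [Module.Finite C0 P] (Ψ : H C0 P →ₗ[K C0] H C0 W) (h : Surjective Ψ)
    (x : H C0 P) (hx : x ≠ 0) (h0 : Ψ x = 0) : finrank k W < finrank k P := by
  have e : ∀ (N : Type) [AddCommGroup N] [Module k N] [Module C0 N] [IsScalarTower C0 k N]
      [Module.Finite k N], length C0 N = finrank k N * length C0 k := by
    intro N _ _ _ _ _
    rw [((Module.finBasis k N).equivFun.restrictScalars C0).length_eq, length_pi_of_fintype]
    simp
  have h1 := length_eq_add_of_exact (LinearMap.ker Ψ).subtype Ψ (Submodule.subtype_injective _) h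
    (LinearMap.exact_subtype_ker_map Ψ)
  rw [len_eq, len_eq] at h1
  have : Nontrivial (LinearMap.ker Ψ) := ⟨⟨x, h0⟩, 0, fun e => hx (congrArg Subtype.val e)⟩
  have h2 : length C0 W < length C0 P := by
    rw [h1, add_comm]
    exact (ENat.lt_add_one_iff length_ne_top).2 le_rfl |>.trans_le
      (add_le_add le_rfl (Order.one_le_iff_pos.2 length_pos))
  rw [e W, e P] at h2
  by_contra h3
  have h4 : (finrank k P : ℕ∞) ≤ finrank k W := by exact_mod_cast not_lt.1 h3
  exact absurd h2 (not_lt.2 (mul_le_mul_left h4 _))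

open Classical in
/-- Extension by zero. -/
noncomputable def ex {A C : Type} [Zero C] {p : A → Prop} (w : {a // p a} → C) (a : A) : C :=
  if h : p a then w ⟨a, h⟩ else 0

theorem ex_val {A C : Type} [Zero C] {p : A → Prop} (w : {a // p a} → C) (a : {a // p a}) :
    ex w a.1 = w a := dif_pos a.2

theorem ex_neg {A C : Type} [Zero C] {p : A → Prop} (w : {a // p a} → C) {a : A} (h : ¬ p a) :
    ex w a = 0 := dif_neg h

theorem ex_add {A C : Type} [AddZeroClass C] {p : A → Prop} (w w' : {a // p a} → C) (a : A) :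
    ex (w + w') a = ex w a + ex w' a := by
  unfold ex
  split_ifs <;> simp

theorem ex_smul {A C R : Type} [Zero C] [SMulZeroClass R C] {p : A → Prop} (c : R)
    (w : {a // p a} → C) (a : A) : ex (c • w) a = c • ex w a := by
  unfold ex
  split_ifs <;> simp

theorem act_act {F Pt V : Type} [Field F] [Fintype Pt] [AddCommGroup V] [Module F V]
    (b b' : Matrix Pt Pt F) (u : Pt → V) : act b (act b' u) = act (b * b') u := by
  funext q
  simp only [act, Matrix.mul_apply, Finset.smul_sum, Finset.sum_smul, mul_smul]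
  exact Finset.sum_comm

/-- Coordinates of the families of vectors. -/
abbrev ZZ {T I O X Y : Type} (tv : T → I) (tp : T → O) (yi : Y → I) (xo : X → O) : Type :=
  {z : T × Y × X // yi z.2.1 = tv z.1 ∧ xo z.2.2 = tp z.1}

/-- The space of parameters. -/
abbrev PP {k C T I O X Y : Type} [Field k] [Field C] [Algebra k C]
    (S : I → I → Submodule k (Matrix T T C)) (yi : Y → I) (xo : X → O) : Type :=
  ({x : X × X // xo x.1 = xo x.2} → C) × ∀ y : Y × Y, S (yi y.1) (yi y.2)

theorem core {C0 k C F : Type} [CommRing C0] [IsArtinianRing C0] [Field k] [Field C] [Field F]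
    [Algebra C0 k] [Algebra k F] [Algebra C0 F] [IsScalarTower C0 k F] [Module.Finite C0 F]
    [Algebra k C] [Algebra C F] [IsScalarTower k C F] [Algebra C0 C] [IsScalarTower C0 k C]
    [IsScalarTower C0 C F] {Pt : Type} [Fintype Pt] [DecidableEq Pt]
    (B : Subalgebra k (Matrix Pt Pt F)) (hc : Conn C0 (B : Set (Matrix Pt Pt F)))
    (lam : F →ₗ[C] C) (l1 : lam 1 = 1) {T I O X Y : Type} [Fintype T] [DecidableEq T] [Fintype X]
    [Fintype Y] (tv : T → I) (tp : T → O) (hs : Surjective tv) (α : Matrix Pt T F)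
    (γ : Matrix T Pt F) (hγ : ∀ t t', tv t = tv t' → (γ * α) t t' = (1 : Matrix T T F) t t')
    (S : I → I → Submodule k (Matrix T T C))
    (hS : ∀ i j, ∀ b ∈ B,
      mask (fun t' t => tv t = i ∧ tv t' = j ∧ tp t' = tp t) ((γ * b * α).map lam) ∈ S i j)
    (yi : Y → I) (xo : X → O) (hne : Nonempty Y ∨ Nonempty X) :
    Nat.card {z : T × Y × X // yi z.2.1 = tv z.1 ∧ xo z.2.2 = tp z.1} * finrank k C <
      Nat.card {x : X × X // xo x.1 = xo x.2} * finrank k C +
        ∑ y : Y × Y, finrank k (S (yi y.1) (yi y.2)) := by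
  classical
  have fC : Module.Finite C0 C :=
    Module.Finite.of_injective (IsScalarTower.toAlgHom C0 C F).toLinearMap (algebraMap C F).injective
  have fk : Module.Finite k C := Module.Finite.of_restrictScalars_finite C0 k C
  have nM : IsNoetherian C0 (Matrix T T C) := inferInstanceAs (IsNoetherian C0 (T → T → C))
  have fS : ∀ i j, Module.Finite C0 (S i j) := fun i j =>
    Module.Finite.of_injective ((S i j).subtype.restrictScalars C0) Subtype.val_injective
  have la : ∀ (a : F) (c : C), lam (a * algebraMap C F c) = lam a * c := fun a c => by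
    rw [mul_comm, ← Algebra.smul_def, map_smul, smul_eq_mul, mul_comm]
  have l0 : ∀ (c : C0) (a : F), lam (c • a) = c • lam a := fun c a =>
    (lam.restrictScalars C0).map_smul c a
  let β : (ZZ tv tp yi xo → C) → PP S yi xo →ₗ[C0] (ZZ tv tp yi xo → C) := fun w =>
    { toFun := fun g z => ∑ y, ∑ t, (g.2 (y, z.1.2.1) : Matrix T T C) z.1.1 t * ex w (t, y, z.1.2.2)
        - ∑ x, ex g.1 (z.1.2.2, x) * ex w (z.1.1, z.1.2.1, x)
      map_add' := fun g g' => by
        funext z
        simp only [Prod.fst_add, Prod.snd_add, Pi.add_apply, Submodule.coe_add, Matrix.add_apply,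
          ex_add, add_mul, Finset.sum_add_distrib]
        ring
      map_smul' := fun c g => by
        funext z
        simp only [Prod.smul_fst, Prod.smul_snd, Pi.smul_apply, Submodule.coe_smul_of_tower,
          Matrix.smul_apply, ex_smul, smul_mul_assoc, RingHom.id_apply, smul_sub, Finset.smul_sum] }
  have β1 : ∀ w g z, β w g z =
      ∑ y, ∑ t, (g.2 (y, z.1.2.1) : Matrix T T C) z.1.1 t * ex w (t, y, z.1.2.2)
        - ∑ x, ex g.1 (z.1.2.2, x) * ex w (z.1.1, z.1.2.1, x) := fun _ _ _ => rfl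
  let cu : (ZZ tv tp yi xo → C) → Y → Pt → X → F := fun w y p x => ∑ t, α p t * algebraMap C F (ex w (t, y, x))
  let r : Y → Pt → (X → F) →ₗ[C0] (ZZ tv tp yi xo → C) := fun y p =>
    { toFun := fun f z => if z.1.2.1 = y then lam (γ z.1.1 p * f z.1.2.2) else 0
      map_add' := fun f f' => by
        funext z
        simp only [Pi.add_apply, mul_add, map_add]
        split_ifs <;> simp
      map_smul' := fun c f => by
        funext z
        simp only [Pi.smul_apply, mul_smul_comm, l0, RingHom.id_apply]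
        split_ifs <;> simp }
  have r1 : ∀ y p f z, r y p f z = if z.1.2.1 = y then lam (γ z.1.1 p * f z.1.2.2) else 0 :=
    fun _ _ _ _ => rfl
  let hb : ∀ b ∈ B, Y → Y → PP S yi xo := fun b hb y0 y' =>
    (0, fun y => if y = (y0, y') then ⟨_, hS (yi y.1) (yi y.2) b hb⟩ else 0)
  have k1 : ∀ b (h : b ∈ B) w y0 y', ∑ p, r y' p (act b (cu w y0) p) = β w (hb b h y0 y') := by
    intro b h w y0 y'
    funext z
    rw [Finset.sum_apply, β1]
    have e0 : ∀ x, ex (hb b h y0 y').1 x = 0 := fun x => by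
      unfold ex
      split_ifs <;> rfl
    simp only [e0, zero_mul, Finset.sum_const_zero, sub_zero, r1]
    by_cases e : z.1.2.1 = y'
    · simp only [if_pos e]
      rw [Finset.sum_eq_single y0 (fun y _ hy => by simp [hb, hy]) (by simp)]
      have e2 : ∑ p, lam (γ z.1.1 p * act b (cu w y0) p z.1.2.2) =
          ∑ t, lam ((γ * b * α) z.1.1 t) * ex w (t, y0, z.1.2.2) := by
        simp only [← la, ← map_sum]
        congr 1
        simp only [act, cu, Finset.sum_apply, Pi.smul_apply, smul_eq_mul, Matrix.mul_apply,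
          Finset.mul_sum, Finset.sum_mul, mul_assoc]
        rw [Finset.sum_comm, Finset.sum_comm (s := Finset.univ (α := T))]
        exact Finset.sum_congr rfl fun _ _ => Finset.sum_comm
      rw [e2]
      refine Finset.sum_congr rfl fun t _ => ?_
      by_cases e3 : yi y0 = tv t ∧ xo z.1.2.2 = tp t
      · simp only [hb, e, if_true]
        rw [mask_pos _ ⟨e3.1.symm, by rw [← e]; exact z.2.1.symm, z.2.2.symm.trans e3.2⟩]
        rfl
      · rw [ex_neg w (a := (t, y0, z.1.2.2)) e3, mul_zero, mul_zero]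
    · simp [hb, e]
  have k0 : ∀ (w : ZZ tv tp yi xo → C) (z : ZZ tv tp yi xo) (x : X) (a : F),
      ∑ t, lam ((γ * α) z.1.1 t * a) * ex w (t, z.1.2.1, x) = lam a * ex w (z.1.1, z.1.2.1, x) := by
    intro w z x a
    rw [Finset.sum_eq_single z.1.1 (fun t _ ht => ?_) (by simp), hγ _ _ rfl, Matrix.one_apply_eq,
      one_mul]
    by_cases e3 : yi z.1.2.1 = tv t ∧ xo x = tp t
    · rw [hγ _ _ (z.2.1.symm.trans e3.1), Matrix.one_apply_ne ht.symm]
      simp
    · rw [ex_neg w (a := (t, z.1.2.1, x)) e3, mul_zero]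
  have k3 : ∀ (w : ZZ tv tp yi xo → C) (f : X → X → F) (z : ZZ tv tp yi xo), (∑ y, ∑ p, r y p (∑ x, cu w y p x • f x)) z =
      ∑ x, lam (f x z.1.2.2) * ex w (z.1.1, z.1.2.1, x) := by
    intro w f z
    simp only [Finset.sum_apply, r1]
    rw [Finset.sum_eq_single z.1.2.1 (fun y _ hy => by simp [hy.symm]) (by simp)]
    simp only [if_true, ← k0 w z, ← la, ← map_sum]
    congr 1
    simp only [cu, Pi.smul_apply, smul_eq_mul, Matrix.mul_apply, Finset.mul_sum, Finset.sum_mul]
    rw [Finset.sum_comm]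
    refine Finset.sum_congr rfl fun x _ => Finset.sum_comm.trans
      (Finset.sum_congr rfl fun t _ => Finset.sum_congr rfl fun p _ => by ring)
  have dec : ∀ f : X → F, f = ∑ x, f x • (Pi.single x 1 : X → F) := fun f => by
    ext x
    simp [Pi.single_apply]
  have k2 : ∀ w : ZZ tv tp yi xo → C, ∑ y, ∑ p, r y p (cu w y p) = w := by
    intro w
    funext z
    have := k3 w (fun x => Pi.single x 1) z
    simp only [← dec] at this
    rw [this, Finset.sum_eq_single z.1.2.2 (fun x _ hx => by simp [hx.symm]) (by simp)]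
    simp only [Pi.single_eq_same, l1, one_mul]
    exact ex_val w z
  let κ : X → (X → F) →ₗ[C0] PP S yi xo := fun x =>
    { toFun := fun f => (fun a => if a.1.2 = x then lam (f a.1.1) else 0, 0)
      map_add' := fun f f' => Prod.ext (by
        funext a
        simp only [Prod.fst_add, Pi.add_apply, map_add]
        split_ifs <;> simp) (add_zero _).symm
      map_smul' := fun c f => Prod.ext (by
        funext a
        simp only [Prod.smul_fst, Pi.smul_apply, l0, RingHom.id_apply]
        split_ifs <;> simp) (smul_zero _).symm }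
  have k4 : ∀ (w : ZZ tv tp yi xo → C) (f : X → X → F),
      ∑ y, ∑ p, r y p (∑ x, cu w y p x • f x) = -β w (∑ x, κ x (f x)) := by
    intro w f
    funext z
    rw [k3, Pi.neg_apply, map_sum, Finset.sum_apply, ← Finset.sum_neg_distrib]
    refine Finset.sum_congr rfl fun x _ => ?_
    have e2 : (κ x (f x)).2 = 0 := rfl
    rw [β1, e2]
    simp only [Pi.zero_apply, Submodule.coe_zero, Matrix.zero_apply, zero_mul,
      Finset.sum_const_zero, zero_sub, neg_neg]
    rw [Finset.sum_eq_single x (fun x' _ hx => ?_) (by simp)]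
    · by_cases e : xo z.1.2.2 = xo x
      · rw [ex_val (κ x (f x)).1 ⟨(z.1.2.2, x), e⟩]
        exact congrArg (· * _) (if_pos rfl).symm
      · rw [ex_neg w (a := (z.1.1, z.1.2.1, x)) fun h => e (z.2.2.trans h.2.symm), mul_zero,
          mul_zero]
    · by_cases e : xo z.1.2.2 = xo x'
      · rw [ex_val (κ x (f x)).1 ⟨(z.1.2.2, x'), e⟩]
        exact mul_eq_zero_of_left (if_neg hx) _
      · rw [ex_neg _ (a := (z.1.2.2, x')) e, zero_mul]
  obtain ⟨n, w, hw⟩ := Module.Finite.exists_fin (R := C0) (M := ZZ tv tp yi xo → C)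
  let Ψ : H C0 (PP S yi xo) →ₗ[K C0] H C0 (ZZ tv tp yi xo → C) := ∑ j : Fin n, H.tv C0 j • H.map (β (w j))
  have Ψ1 : ∀ g, Ψ g = ∑ j : Fin n, H.tv C0 j • H.map (β (w j)) g := fun g => by simp [Ψ]
  let u : Y → Pt → H C0 (X → F) := fun y p => ∑ j : Fin n, H.tv C0 j • sgl C0 _ F (cu (w j) y p)
  let ρ : Y → (Pt → H C0 (X → F)) →ₗ[K C0] H C0 (ZZ tv tp yi xo → C) := fun y =>
    ∑ p, H.map (r y p) ∘ₗ LinearMap.proj p
  have ρ1 : ∀ y v, ρ y v = ∑ p, H.map (r y p) (v p) := fun y v => by simp [ρ]
  let U : Submodule (K C0) (Pt → H C0 (X → F)) :=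
    Submodule.span _ {v | ∃ b ∈ B, ∃ y, v = act b (u y)}
  have hU : ∀ b ∈ (B : Set (Matrix Pt Pt F)), ∀ v ∈ U.toAddSubgroup, act b v ∈ U.toAddSubgroup := by
    intro b hb v hv
    change act b v ∈ U
    induction hv using Submodule.span_induction with
    | mem v hv =>
      obtain ⟨b', hb', y, rfl⟩ := hv
      exact Submodule.subset_span ⟨b * b', B.mul_mem hb hb', y, act_act _ _ _⟩
    | zero => convert U.zero_mem; funext q; simp [act]
    | add v v' _ _ h h' =>
      convert U.add_mem h h'; funext q; simp [act, Finset.sum_add_distrib]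
    | smul c v _ h =>
      convert U.smul_mem c h; funext q
      simp only [act, Pi.smul_apply, Finset.smul_sum]
      exact Finset.sum_congr rfl fun _ _ => smul_comm _ _ _
  have hA : ∀ y, ∀ v ∈ U, ρ y v ∈ LinearMap.range Ψ := by
    intro y'
    refine (Submodule.span_le (p := (LinearMap.range Ψ).comap (ρ y'))).2 ?_
    rintro _ ⟨b, h, y, rfl⟩
    refine ⟨sgl C0 _ C0 (hb b h y y'), ?_⟩
    have : ∀ p, act b (u y) p = ∑ j : Fin n, H.tv C0 j • sgl C0 _ F (act b (cu (w j) y) p) := by
      intro p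
      simp only [act, u, Finset.smul_sum, map_sum, map_smul, smul_comm (b p _)]
      exact Finset.sum_comm
    rw [Ψ1, ρ1]
    simp only [this, map_sum, map_smul, map_sgl (A' := C0), ← k1, Finset.smul_sum]
    exact Finset.sum_comm
  have hsurj : Surjective Ψ := by
    intro v
    change v ∈ LinearMap.range Ψ
    obtain ⟨c, rfl⟩ := exists_sum (A := C0) w v fun _ => hw ▸ trivial
    refine Submodule.sum_mem _ fun j _ => Submodule.smul_mem _ _
      ((Submodule.smul_mem_iff_of_isUnit _ (tv_unit j)).1 ?_)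
    obtain ⟨D, hD, hDU⟩ := hc (H C0 (X → F)) (fun c x => by rw [algebraMap_smul, algebraMap_smul])
      U.toAddSubgroup hU (fun c v hv => U.smul_mem c hv) j
    have h1 : ∑ y, ρ y (fun p => D (u y p)) ∈ LinearMap.range Ψ :=
      Submodule.sum_mem _ fun y _ => hA y _ (hDU _ (Submodule.subset_span ⟨1, B.one_mem, y, by
        funext q
        simp [act, Matrix.one_apply]⟩))
    have h2 : ∀ y p, D (u y p) = H.tv C0 j • sgl C0 _ F (cu (w j) y p) +
        ∑ m : Fin n, H.tv C0 m • ∑ x, cu (w m) y p x • D (sgl C0 _ F (Pi.single x 1)) := by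
      intro y p
      simp only [u, map_sum, hD, thK_tv, Finset.sum_add_distrib, ite_smul, zero_smul, Fin.val_inj,
        Finset.sum_ite_eq, Finset.mem_univ, if_true, ← map_smul D, ← map_sum D,
        ← map_smul (sgl C0 _ F), ← map_sum (sgl C0 _ F), ← dec]
    have h3 : ∀ w' : ZZ tv tp yi xo → C, ∑ y, ∑ p, H.map (r y p)
        (∑ x, cu w' y p x • D (sgl C0 _ F (Pi.single x 1))) =
        -H.map (β w') (∑ x, H.map (κ x) (D (sgl C0 _ F (Pi.single x 1)))) := by
      intro w'
      rw [eq_neg_iff_add_eq_zero]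
      refine H.ext fun g => ?_
      simp only [cf_add, cf_sum, cf_map, cf_smulA, cf_zero, k4, neg_add_cancel]
    have h4 : ∑ y, ρ y (fun p => D (u y p)) = H.tv C0 j • sgl C0 _ C0 (w j) -
        Ψ (∑ x, H.map (κ x) (D (sgl C0 _ F (Pi.single x 1)))) := by
      simp only [ρ1, h2, map_add, Finset.sum_add_distrib, map_smul, map_sgl (A' := C0),
        ← Finset.smul_sum, ← map_sum (sgl C0 _ C0), k2]
      rw [sub_eq_add_neg, Ψ1, ← Finset.sum_neg_distrib]
      congr 1
      simp only [← smul_neg, ← h3]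
      have h5 : ∀ y p (f : Fin n → H C0 (X → F)), H.map (r y p) (∑ m : Fin n, H.tv C0 m • f m) =
          ∑ m : Fin n, H.tv C0 m • H.map (r y p) (f m) := fun y p f => by
        simp only [map_sum, map_smul]
      simp only [h5]
      rw [Finset.sum_congr rfl fun y _ => Finset.sum_comm, Finset.sum_comm]
      simp only [← Finset.smul_sum]
    rw [h4] at h1
    exact (Submodule.sub_mem_iff_left _ (LinearMap.mem_range_self Ψ _)).1 h1
  let p0 : PP S yi xo := ∑ y, hb 1 B.one_mem y y + ∑ x, κ x (Pi.single x 1)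
  have a1 : ∀ f : Pt → X → F, act (1 : Matrix Pt Pt F) f = f := fun f => by
    funext q
    simp [act, Matrix.one_apply]
  have h0 : Ψ (sgl C0 _ C0 p0) = 0 := by
    rw [Ψ1]
    refine Finset.sum_eq_zero fun j _ => ?_
    have := k4 (w j) fun x => Pi.single x 1
    simp only [← dec] at this
    rw [map_sgl (A' := C0), map_add, map_sum]
    simp only [← k1, a1, this, neg_add_cancel, map_zero, smul_zero]
  have hp : p0 ≠ 0 := by
    intro e
    rcases hne with ⟨⟨y⟩⟩ | ⟨⟨x⟩⟩
    · obtain ⟨t, ht⟩ := hs (yi y)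
      have e1 : ((p0.2 (y, y) : Matrix T T C)) t t = 1 := by
        have e2 : ∀ x f, (κ x f).2 = 0 := fun _ _ => rfl
        simp only [p0, Prod.snd_add, Prod.snd_sum, e2, Finset.sum_const_zero, add_zero,
          Finset.sum_apply]
        rw [Finset.sum_eq_single y (fun y' _ hy => by simp [hb, hy.symm]) (by simp)]
        simp only [hb, if_true]
        rw [mask_pos _ ⟨ht, ht, rfl⟩, Matrix.map_apply, Matrix.mul_one, hγ _ _ rfl,
          Matrix.one_apply_eq, l1]
      rw [e] at e1
      exact zero_ne_one e1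
    · have e1 : p0.1 ⟨(x, x), rfl⟩ = 1 := by
        have e2 : ∀ y y', (hb 1 B.one_mem y y').1 = 0 := fun _ _ => rfl
        have e3 : ∀ x f a, (κ x f).1 a = if a.1.2 = x then lam (f a.1.1) else 0 := fun _ _ _ => rfl
        simp only [p0, Prod.fst_add, Prod.fst_sum, e2, Finset.sum_const_zero, zero_add,
          Finset.sum_apply, e3]
        simp [l1]
      rw [e] at e1
      exact zero_ne_one e1
  have := len_lt (k := k) Ψ hsurj _ (fun e => hp (by
    simpa [cf_sgl] using congrArg (fun z => cf z 0) e)) h0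
  simpa only [Module.finrank_prod, Module.finrank_pi_fintype, Finset.sum_const,
    Finset.card_univ, smul_eq_mul, Nat.card_eq_fintype_card] using this

theorem card_fib {I : Type} (d : I → ℕ) (i : I) :
    Nat.card {y : Σ i, Fin (d i) // y.1 = i} = d i := by
  rw [Nat.card_congr (Equiv.sigmaSubtype i)]
  simp

theorem rig2 : SRig := by
  intro C0 k F _ _ _ _ _ _ _ _ _ Pt _ _ B hc C _ _ _ _ lam l1 T I O _ _ _ _ tv tp hs α γ hγ S hS d v
    hne
  classical
  let _ : Algebra C0 C := ((algebraMap k C).comp (algebraMap C0 k)).toAlgebra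
  have : IsScalarTower C0 k C := IsScalarTower.of_algebraMap_eq fun _ => rfl
  have : IsScalarTower C0 C F := IsScalarTower.of_algebraMap_eq fun c => by
    rw [IsScalarTower.algebraMap_apply C0 k F, IsScalarTower.algebraMap_apply k C F]
    rfl
  have h := core B hc lam l1 tv tp hs α γ hγ S hS (Sigma.fst : (Σ i, Fin (d i)) → I)
    (Sigma.fst : (Σ o, Fin (v o)) → O) (hne.imp (fun h => ?_) fun h => ?_)
  · have e1 : Nat.card {z : T × (Σ i, Fin (d i)) × (Σ o, Fin (v o)) //
        z.2.1.1 = tv z.1 ∧ z.2.2.1 = tp z.1} = ∑ t, d (tv t) * v (tp t) := by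
      let e : {z : T × (Σ i, Fin (d i)) × (Σ o, Fin (v o)) // z.2.1.1 = tv z.1 ∧ z.2.2.1 = tp z.1} ≃
          Σ t, {y : Σ i, Fin (d i) // y.1 = tv t} × {x : Σ o, Fin (v o) // x.1 = tp t} :=
        { toFun := fun z => ⟨z.1.1, ⟨z.1.2.1, z.2.1⟩, ⟨z.1.2.2, z.2.2⟩⟩
          invFun := fun z => ⟨(z.1, z.2.1.1, z.2.2.1), z.2.1.2, z.2.2.2⟩
          left_inv := fun _ => rfl
          right_inv := fun _ => rfl }
      rw [Nat.card_congr e, Nat.card_sigma]
      simp only [Nat.card_prod, card_fib]
    have e2 : Nat.card {x : (Σ o, Fin (v o)) × (Σ o, Fin (v o)) // x.1.1 = x.2.1} =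
        ∑ o, v o ^ 2 := by
      let e : {x : (Σ o, Fin (v o)) × (Σ o, Fin (v o)) // x.1.1 = x.2.1} ≃
          Σ x : Σ o, Fin (v o), {y : Σ o, Fin (v o) // y.1 = x.1} :=
        { toFun := fun z => ⟨z.1.2, ⟨z.1.1, z.2⟩⟩
          invFun := fun z => ⟨(z.2.1, z.1), z.2.2⟩
          left_inv := fun _ => rfl
          right_inv := fun _ => rfl }
      rw [Nat.card_congr e, Nat.card_sigma]
      simp only [card_fib, Fintype.sum_sigma, Finset.sum_const, Finset.card_univ, Fintype.card_fin,
        smul_eq_mul, sq]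
    rw [e1, e2, Fintype.sum_prod_type] at h
    have e3 : ∀ f : I → ℕ, ∑ y : Σ i, Fin (d i), f y.1 = ∑ i, d i * f i := fun f => by
      rw [Fintype.sum_sigma]
      exact Finset.sum_congr rfl fun i _ => (Finset.sum_const (f i)).trans (by simp)
    have e4 : ∀ i, ∑ y : Σ i, Fin (d i), finrank k (S i y.1) = ∑ j, d j * finrank k (S i j) :=
      fun i => e3 fun j => finrank k (S i j)
    have e5 := e3 fun i => ∑ j, d j * finrank k (S i j)
    simp only [e4] at h
    rw [e5] at h
    simpa only [Finset.mul_sum, mul_assoc] using h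
  · obtain ⟨i, hi⟩ := Function.ne_iff.1 h
    exact ⟨⟨i, 0, Nat.pos_of_ne_zero hi⟩⟩
  · obtain ⟨i, hi⟩ := Function.ne_iff.1 h
    exact ⟨⟨i, 0, Nat.pos_of_ne_zero hi⟩⟩

end Rig2A

end Pool.Agent.MP_bd94e8_al.H89
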