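import Pool.Agent.MP_bd94e8_al.H22N.Fine

/-!
The induction step for thin bases.
-/

set_option autoImplicit false
set_option linter.unusedSectionVars false

namespace Pool.Agent.MP_bd94e8_al.H89

open Module Function Matrix

namespace H22N

variable {k F : Type} [Field k] [Field F] [Algebra k F] {Pt ι : Type} [Fintype Pt]
  [DecidableEq Pt] {Q : Prob k F Pt ι Unit} {ht : Pt → ℕ} {t : Pt}

theorem mul_ne {a b : Matrix Pt Pt F} {q p : Pt} (h : (a * b) q p ≠ 0) :
    ∃ x, a q x ≠ 0 ∧ b x p ≠ 0 := by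
  rw [Matrix.mul_apply] at h
  obtain ⟨x, -, hx⟩ := Finset.exists_ne_zero_of_sum_ne_zero h
  exact ⟨x, left_ne_zero_of_mul hx, right_ne_zero_of_mul hx⟩

theorem mul_single {a b : Matrix Pt Pt F} {q p : Pt} (x : Pt)
    (h : ∀ y, a q y ≠ 0 → b y p ≠ 0 → y = x) : (a * b) q p = a q x * b x p := by
  rw [Matrix.mul_apply]
  refine Finset.sum_eq_single x (fun y _ hy => ?_) (by simp)
  by_contra e
  exact hy (h y (left_ne_zero_of_mul e) (right_ne_zero_of_mul e))

theorem mask_mul (s : Pt → Prop) (b : Matrix Pt Pt F) :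
    mask (fun _ a => s a) (1 : Matrix Pt Pt F) * b = mask (fun a _ => s a) b := by
  ext q p
  rw [mul_single q fun z z1 _ => by
    by_contra ne
    exact (mask_ne z1).2 (Matrix.one_apply_ne (Ne.symm ne)), mask_apply, mask_apply]
  split_ifs <;> simp

theorem mul_mask (s : Pt → Prop) (b : Matrix Pt Pt F) :
    b * mask (fun _ a => s a) (1 : Matrix Pt Pt F) = mask (fun _ a => s a) b := by
  ext q p
  rw [mul_single p fun z _ z1 => by
    by_contra ne
    exact (mask_ne z1).2 (Matrix.one_apply_ne ne), mask_apply, mask_apply]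
  split_ifs <;> simp

/-- Triangular in the block of a vertex. -/
def Tr (vt : Pt → ι) (ht : Pt → ℕ) (i : ι) (m : Matrix Pt Pt F) : Prop :=
  ∀ q p, m q p ≠ 0 → vt q = i ∧ vt p = i ∧ ht p ≤ ht q

/-- Strictly triangular elements of the algebra in the block of a vertex. -/
def St (Q : Prob k F Pt ι Unit) (ht : Pt → ℕ) (i : ι) (m : Matrix Pt Pt F) : Prop :=
  m ∈ Q.R0 ∧ ∀ q p, m q p ≠ 0 → Q.vt q = i ∧ Q.vt p = i ∧ ht p < ht q

theorem ht_inj (hf : Flag Q ∅ ht) {i : ι} {p q : Pt} (hp : Q.vt p = i) (hq : Q.vt q = i)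
    (h : ht p = ht q) : p = q := hf.inj p q (hp.trans hq.symm) (fun h => h) h

theorem strict (hf : Flag Q ∅ ht) {r : Matrix Pt Pt F} (hr : r ∈ Q.R0) {q p : Pt}
    (h : Q.vt q = Q.vt p) (e : r q p ≠ 0) : ht p < ht q := by
  refine lt_of_le_of_ne (hf.tri r hr.1 q p h (fun h => h) e) fun e' => ?_
  obtain rfl := ht_inj hf h.symm rfl e'
  exact e (hr.2 _)

theorem exists_st (hf : Flag Q ∅ ht) {i : ι} {a b : Pt} (ha : Q.vt a = i) (hb : Q.vt b = i)
    (h : ht b < ht a) : ∃ y, St Q ht i y ∧ y a b ≠ 0 := by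
  obtain ⟨y, hy, h1, h2⟩ := hf.step b a (hb.trans ha.symm) (fun h => h) h
  have hm := Q.blk_mem hy i i
  have h0 : Q.blk i i y ∈ Q.R0 := ⟨hm.1, fun p => by
    by_cases e : Q.vt p = i
    · rw [Q.blk_pos _ e e, hf.diag y hy p b (e.trans hb.symm) (fun h => h), h2]
    · exact Q.blk_neg _ fun h => e h.1⟩
  refine ⟨_, ⟨h0, fun q p e => ?_⟩, by rwa [Q.blk_pos _ hb ha]⟩
  obtain ⟨e1, e2⟩ := hm.2 q p e
  exact ⟨e2, e1, strict hf h0 (e2.trans e1.symm) e⟩

theorem t_min (hf : Flag Q ∅ ht) (h0 : ∀ p, ¬ Q.Ar p t) {a : Pt} (ha : Q.vt a = Q.vt t)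
    (h : a ≠ t) : ht t < ht a := by
  rcases lt_trichotomy (ht t) (ht a) with e | e | e
  · exact e
  · exact (h (ht_inj hf ha rfl e.symm)).elim
  · obtain ⟨y, hy, h1⟩ := exists_st hf rfl ha e
    exact (h1 (row_zero0 h0 hy.1 a)).elim

theorem exists_iso (hf : Flag Q ∅ ht) {i : ι} {a b : Pt} (ha : Q.vt a = i) (hb : Q.vt b = i)
    (h : ht b < ht a) : ∃ y, St Q ht i y ∧ y a b ≠ 0 ∧
      ∀ a' b', y a' b' ≠ 0 → ht a' ≤ ht a → ht b ≤ ht b' → a' = a ∧ b' = b := by
  by_cases hz : ∃ z, Q.vt z = i ∧ ht b < ht z ∧ ht z < ht a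
  · obtain ⟨z, hz, h1, h2⟩ := hz
    obtain ⟨y1, hy1, e1⟩ := exists_st hf ha hz h2
    obtain ⟨y2, hy2, e2⟩ := exists_st hf hz hb h1
    have all : ∀ x, Q.vt x = i → x = a ∨ x = z ∨ x = b := by
      intro x hx
      have := hf.three i (fun h => h) x a z b hx ha hz hb
      have : a ≠ z := fun e => by rw [e] at h2; omega
      have : a ≠ b := fun e => by rw [e] at h; omega
      have : z ≠ b := fun e => by rw [e] at h1; omega
      tauto
    have key : ∀ a' w b', y1 a' w ≠ 0 → y2 w b' ≠ 0 → a' = a ∧ w = z ∧ b' = b := by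
      intro a' w b' e1 e2
      obtain ⟨v1, v2, l1⟩ := hy1.2 _ _ e1
      obtain ⟨-, v3, l2⟩ := hy2.2 _ _ e2
      obtain rfl | rfl | rfl := all _ v1 <;> obtain rfl | rfl | rfl := all _ v2 <;>
        obtain rfl | rfl | rfl := all _ v3 <;> first | omega | exact ⟨rfl, rfl, rfl⟩
    have key2 : ∀ a' b', (y1 * y2) a' b' ≠ 0 → a' = a ∧ b' = b := by
      intro a' b' e
      obtain ⟨w, e1, e2⟩ := mul_ne e
      exact ⟨(key _ _ _ e1 e2).1, (key _ _ _ e1 e2).2.2⟩
    refine ⟨y1 * y2, ⟨⟨Q.B.mul_mem hy1.1.1 hy2.1.1, fun p => ?_⟩, fun q p e => ?_⟩, ?_,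
      fun a' b' e _ _ => key2 a' b' e⟩
    · by_contra e
      obtain ⟨rfl, rfl⟩ := key2 _ _ e
      omega
    · obtain ⟨rfl, rfl⟩ := key2 _ _ e
      exact ⟨ha, hb, h⟩
    · rw [mul_single z fun w e1 e2 => (key _ _ _ e1 e2).2.1]
      exact mul_ne_zero e1 e2
  · obtain ⟨y, hy, e⟩ := exists_st hf ha hb h
    refine ⟨y, hy, e, fun a' b' e' l1 l2 => ?_⟩
    obtain ⟨v1, v2, l⟩ := hy.2 _ _ e'
    constructor
    · by_contra ne
      have : ht a' ≠ ht a := fun e => ne (ht_inj hf v1 ha e)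
      exact hz ⟨a', v1, by omega, by omega⟩
    · by_contra ne
      have : ht b' ≠ ht b := fun e => ne (ht_inj hf v2 hb e)
      exact hz ⟨b', v2, by omega, by omega⟩

theorem Tr.mul_diag (hf : Flag Q ∅ ht) {i : ι} {m m' : Matrix Pt Pt F} (h : Tr Q.vt ht i m)
    (h' : Tr Q.vt ht i m') (a : Pt) : (m * m') a a = m a a * m' a a :=
  mul_single a fun _ e e' => ht_inj hf (h _ _ e).2.1 (h _ _ e).1
    (le_antisymm (h _ _ e).2.2 (h' _ _ e').2.2)

theorem Tr.mul {vt : Pt → ι} {i : ι} {m m' : Matrix Pt Pt F} (h : Tr vt ht i m)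
    (h' : Tr vt ht i m') : Tr vt ht i (m * m') := fun q p e => by
  obtain ⟨x, e1, e2⟩ := mul_ne e
  exact ⟨(h _ _ e1).1, (h' _ _ e2).2.1, (h' _ _ e2).2.2.trans (h _ _ e1).2.2⟩

theorem St.tr {i : ι} {y : Matrix Pt Pt F} (h : St Q ht i y) : Tr Q.vt ht i y := fun q p e =>
  ⟨(h.2 q p e).1, (h.2 q p e).2.1, (h.2 q p e).2.2.le⟩

theorem St.unit {i : ι} {y : Matrix Pt Pt F} (h : St Q ht i y) :
    ∃ φ ∈ Q.B, φ * (1 + y) = 1 ∧ (1 + y) * φ = 1 := by
  have pw : ∀ n : ℕ, ∀ q p, (y ^ n) q p ≠ 0 → ht p + n ≤ ht q := by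
    intro n
    induction n with
    | zero =>
      intro q p e
      by_cases e' : q = p
      · rw [e']; rfl
      · exact (e (by rw [pow_zero, Matrix.one_apply_ne e'])).elim
    | succ n ih =>
      intro q p e
      rw [pow_succ] at e
      obtain ⟨x, e1, e2⟩ := mul_ne e
      have := ih _ _ e1
      have := (h.2 _ _ e2).2.2
      omega
  have nil : IsNilpotent (⟨y, h.1.1⟩ : Q.B) := ⟨Finset.univ.sup ht + 1, Subtype.ext (by
    ext q p
    by_contra e
    have := pw _ q p e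
    have : ht q ≤ Finset.univ.sup ht := Finset.le_sup (Finset.mem_univ q)
    omega)⟩
  obtain ⟨u, hu⟩ := nil.isUnit_one_add
  refine ⟨((u⁻¹ : (Q.B)ˣ) : Q.B), Subtype.property _, ?_, ?_⟩
  · have := congrArg Subtype.val u.inv_mul
    rwa [hu] at this
  · have := congrArg Subtype.val u.mul_inv
    rwa [hu] at this

namespace Fine
variable {Λ M T : Type} [Fintype Λ] {p : Λ → Matrix Pt Pt F} {π : T → Pt} {lab : T → Λ}
  {grp : T → M}

theorem vt_ne (H : Fine Q t p π lab grp) {l : Λ} {a b : Pt} (e : p l a b ≠ 0) :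
    Q.vt a = Q.vt t ∧ Q.vt b = Q.vt t := by
  have : Q.blk (Q.vt t) (Q.vt t) (p l) = p l := by rw [Q.blk_eq, H.left, H.right]
  rw [← this] at e
  exact (mask_ne e).1.symm

theorem idem (H : Fine Q t p π lab grp) (l : Λ) : p l * p l = p l := by
  conv_rhs => rw [← H.right l, ← H.sum, Finset.mul_sum]
  exact (Finset.sum_eq_single l (fun l' _ h => H.orth l l' h.symm) (by simp)).symm

theorem tri (H : Fine Q t p π lab grp) (hf : Flag Q ∅ ht) (h0 : ∀ p, ¬ Q.Ar p t) (l : Λ) :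
    Tr Q.vt ht (Q.vt t) (p l) := by
  classical
  suffices ∀ n a, ht a = n → ∀ b, p l a b ≠ 0 → ht b ≤ ht a from fun a b e =>
    ⟨(H.vt_ne e).1, (H.vt_ne e).2, this _ a rfl b e⟩
  intro n
  induction n using Nat.strong_induction_on with
  | _ n ih =>
    intro a hn b e
    obtain ⟨va, vb⟩ := H.vt_ne e
    by_contra lt
    push Not at lt
    obtain ⟨q, hq, hmin⟩ := Finset.exists_min_image
      (Finset.univ.filter fun q => Q.vt q = Q.vt t ∧ ht a < ht q) ht ⟨b, by simp [vb, lt]⟩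
    simp only [Finset.mem_filter, Finset.mem_univ, true_and, and_imp] at hq hmin
    obtain ⟨y, hy, e1⟩ := exists_st hf hq.1 va hq.2
    have hqt : q ≠ t := by
      rintro rfl
      exact e1 (row_zero0 h0 hy.1 a)
    obtain ⟨x, rfl, rfl⟩ := H.lift q l hqt fun e' => e (by rw [e']; rfl)
    obtain ⟨r', hr', e2, -⟩ := H.part y hy.1 (grp x)
    have e3 : r' (π x) b ≠ 0 := by
      rw [e2 x rfl, mul_single a fun z z1 z2 => ?_]
      · exact mul_ne_zero e1 e
      · obtain ⟨-, vz, lz⟩ := hy.2 _ _ z1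
        rcases lt_trichotomy (ht z) (ht a) with c | c | c
        · have := ih _ (hn ▸ c) z rfl b z2
          omega
        · exact ht_inj hf vz va c
        · have := hmin z vz c
          omega
    have := strict hf hr' (hq.1.trans vb.symm) e3
    have := hmin b vb lt
    omega

theorem exists_lab (H : Fine Q t p π lab grp) (hf : Flag Q ∅ ht) (h0 : ∀ p, ¬ Q.Ar p t) :
    ∃ l : Pt → Λ, (∀ a, Q.vt a = Q.vt t → p (l a) a a = 1) ∧
      ∀ a b, Q.vt a = Q.vt t → Q.vt b = Q.vt t → l a = l b → a = b := by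
  have ex : ∀ a, Q.vt a = Q.vt t → ∃ l, p l a a = 1 := by
    intro a ha
    have := congrFun (congrFun H.sum a) a
    rw [Q.e_pos _ ha, Matrix.one_apply_eq, Matrix.sum_apply] at this
    obtain ⟨l, -, hl⟩ := Finset.exists_ne_zero_of_sum_ne_zero (this.trans_ne one_ne_zero)
    have e := (H.tri hf h0 l).mul_diag hf (H.tri hf h0 l) a
    rw [H.idem] at e
    exact ⟨l, mul_left_cancel₀ hl (by rw [← e, mul_one])⟩
  have ex' : ∀ a, ∃ l, Q.vt a = Q.vt t → p l a a = 1 := by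
    intro a
    by_cases ha : Q.vt a = Q.vt t
    · exact (ex a ha).imp fun l h _ => h
    · exact (ex t rfl).imp fun l _ h => (ha h).elim
  choose l hl using ex'
  have key : ∀ a b, Q.vt a = Q.vt t → Q.vt b = Q.vt t → l a = l b → ¬ ht b < ht a := by
    intro a b ha hb e lt
    obtain ⟨y, hy, e1, e2⟩ := exists_iso hf ha hb lt
    obtain ⟨c, hc⟩ := H.scal y hy.1.1 (l a)
    have tr := H.tri hf h0 (l a)
    have c0 : c = 0 := by
      have := congrFun (congrFun hc a) a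
      rw [(tr.mul hy.tr).mul_diag hf tr, tr.mul_diag hf hy.tr, hy.1.2, Matrix.smul_apply, hl a ha]
        at this
      simpa using this.symm
    have := congrFun (congrFun hc a) b
    rw [c0, zero_smul, mul_single b, mul_single a, hl a ha, e, hl b hb] at this
    · exact e1 (by simpa using this)
    · intro z z1 z2
      exact (e2 z b z2 (tr _ _ z1).2.2 le_rfl).1
    · intro z z1 z2
      obtain ⟨w, w1, w2⟩ := mul_ne z1
      exact (e2 w z w2 (tr _ _ w1).2.2 (tr _ _ z2).2.2).2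
  refine ⟨l, hl, fun a b ha hb e => ht_inj hf ha hb (le_antisymm ?_ ?_)⟩
  · exact not_lt.1 (key a b ha hb e)
  · exact not_lt.1 (key b a hb ha e.symm)

/-- The change of basis. -/
theorem exists_col (H : Fine Q t p π lab grp) (hf : Flag Q ∅ ht) (h0 : ∀ p, ¬ Q.Ar p t)
    (hsm : ∀ (c : F), ∀ b ∈ Q.R0, c • b ∈ Q.R0) {l : Pt → Λ}
    (hl : ∀ a, Q.vt a = Q.vt t → p (l a) a a = 1) :
    ∃ c : Matrix Pt Pt F, (∀ a b, c a b ≠ 0 → b = t ∧ a ≠ t ∧ Q.vt a = Q.vt t) ∧
      ∃ φ ∈ Q.B, ∃ φ' ∈ Q.B, ∀ m, φ' * p m * φ * (1 - c) =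
        (1 - c) * mask (fun _ a => Q.vt a = Q.vt t ∧ l a = m) (1 : Matrix Pt Pt F) := by
  classical
  let G : Matrix Pt Pt F := Matrix.of fun a =>
    if Q.vt a = Q.vt t then p (l a) a else (1 : Matrix Pt Pt F) a
  have G1 : ∀ a, Q.vt a = Q.vt t → G a = p (l a) a := fun a h => if_pos h
  have G2 : ∀ a, Q.vt a ≠ Q.vt t → G a = (1 : Matrix Pt Pt F) a := fun a h => if_neg h
  have Gd : ∀ a, G a a = 1 := by
    intro a
    by_cases h : Q.vt a = Q.vt t
    · rw [G1 a h, hl a h]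
    · rw [G2 a h, Matrix.one_apply_eq]
  have Go : ∀ a b, a ≠ b → G a b ≠ 0 → Q.vt a = Q.vt t ∧ Q.vt b = Q.vt t ∧ ht b < ht a := by
    intro a b ne e
    by_cases h : Q.vt a = Q.vt t
    · rw [G1 a h] at e
      obtain ⟨v1, v2, le⟩ := H.tri hf h0 _ _ _ e
      exact ⟨v1, v2, lt_of_le_of_ne le fun e' => ne (ht_inj hf v1 v2 e'.symm)⟩
    · rw [G2 a h, Matrix.one_apply_ne ne] at e
      exact (e rfl).elim
  have GP : ∀ m, G * p m =
      mask (fun _ a => Q.vt a = Q.vt t ∧ l a = m) (1 : Matrix Pt Pt F) * G := by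
    intro m
    rw [mask_mul]
    ext a b
    rw [mask_apply, Matrix.mul_apply_eq_vecMul]
    by_cases h : Q.vt a = Q.vt t
    · rw [G1 a h, ← Matrix.mul_apply_eq_vecMul]
      by_cases e : l a = m
      · rw [if_pos ⟨h, e⟩, ← e, H.idem]
      · rw [if_neg fun h => e h.2, H.orth _ _ e]
        rfl
    · rw [G2 a h, ← Matrix.mul_apply_eq_vecMul, Matrix.one_mul, if_neg fun h' => h h'.1]
      by_contra e
      exact h (H.vt_ne e).1
  obtain ⟨y, hy, ey⟩ : ∃ y, St Q ht (Q.vt t) y ∧ ∀ a b, a ≠ b → b ≠ t → y a b = G a b := by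
    by_cases ex : ∃ a b, a ≠ b ∧ b ≠ t ∧ G a b ≠ 0
    · obtain ⟨a, b, ne, bt, e⟩ := ex
      obtain ⟨va, vb, lt⟩ := Go a b ne e
      obtain ⟨y, hy, e1⟩ := exists_st hf va vb lt
      have tb := t_min hf h0 vb bt
      have all : ∀ x, Q.vt x = Q.vt t → x = a ∨ x = b ∨ x = t := by
        intro x hx
        have := hf.three _ (fun h => h) x a b t hx va vb rfl
        have : a ≠ t := fun e => by rw [e] at lt; omega
        tauto
      have key : ∀ a' b', b' ≠ t → Q.vt a' = Q.vt t ∧ Q.vt b' = Q.vt t ∧ ht b' < ht a' →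
          a' = a ∧ b' = b := by
        rintro a' b' bt' ⟨v1, v2, l1⟩
        obtain rfl | rfl | rfl := all _ v1 <;> obtain rfl | rfl | rfl := all _ v2 <;>
          first | omega | exact ⟨rfl, rfl⟩ | exact (bt' rfl).elim
      refine ⟨(G a b / y a b) • y, ⟨hsm _ _ hy.1, fun q p e => hy.2 q p fun e' => e (by simp [e'])⟩,
        fun a' b' ne' bt' => ?_⟩
      by_cases c : a' = a ∧ b' = b
      · rw [c.1, c.2, Matrix.smul_apply, smul_eq_mul, div_mul_cancel₀ _ e1]
      · have e2 : y a' b' = 0 := by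
          by_contra e2
          exact c (key _ _ bt' (hy.2 _ _ e2))
        have e3 : G a' b' = 0 := by
          by_contra e3
          exact c (key _ _ bt' (Go _ _ ne' e3))
        rw [Matrix.smul_apply, e2, e3, smul_zero]
    · push Not at ex
      exact ⟨0, ⟨⟨Q.B.zero_mem, fun _ => rfl⟩, fun q p e => (e rfl).elim⟩,
        fun a b ne bt => (ex a b ne bt).symm⟩
  obtain ⟨φ, hφ, i1, i2⟩ := hy.unit
  have c0 : ∀ a b, (G - (1 + y)) a b ≠ 0 → b = t ∧ a ≠ t ∧ Q.vt a = Q.vt t := by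
    intro a b e
    rw [Matrix.sub_apply, Matrix.add_apply] at e
    have ne : a ≠ b := by
      rintro rfl
      exact e (by rw [Gd, hy.1.2, Matrix.one_apply_eq, add_zero, sub_self])
    rw [Matrix.one_apply_ne ne, zero_add] at e
    have bt : b = t := by
      by_contra bt
      exact e (by rw [ey a b ne bt, sub_self])
    refine ⟨bt, bt ▸ ne, ?_⟩
    by_contra va
    have e1 : G a b = 0 := by
      by_contra e1
      exact va (Go a b ne e1).1
    have e2 : y a b = 0 := by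
      by_contra e2
      exact va (hy.2 a b e2).1
    exact e (by rw [e1, e2, sub_self])
  have c1 : ∀ a b, ((G - (1 + y)) * φ) a b ≠ 0 → b = t ∧ a ≠ t ∧ Q.vt a = Q.vt t := by
    intro a b e
    obtain ⟨x, e1, e2⟩ := mul_ne e
    obtain ⟨rfl, h2⟩ := c0 a x e1
    refine ⟨?_, h2⟩
    by_contra bt
    exact e2 (row_zero h0 hφ bt)
  refine ⟨_, c1, φ, hφ, 1 + y, Q.B.add_mem Q.B.one_mem hy.1.1, fun m => ?_⟩
  set c := (G - (1 + y)) * φ with hc
  have cc : c * c = 0 := by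
    ext a b
    by_contra e
    obtain ⟨x, e1, e2⟩ := mul_ne e
    exact (c1 x b e2).2.1 (c1 a x e1).1
  have g1 : G * φ = 1 + c := by rw [hc, Matrix.sub_mul, i2, add_sub_cancel]
  have g2 : (1 + c) * (1 - c) = 1 := by rw [mul_sub, mul_one, add_mul, one_mul, cc]; simp
  have g3 : (1 - c) * (1 + c) = 1 := by rw [mul_add, mul_one, sub_mul, one_mul, cc]; simp
  have g4 : (1 - c) * G = 1 + y := by
    have : G = G * φ * (1 + y) := by rw [mul_assoc, i1, mul_one]
    rw [this, g1, ← mul_assoc, g3, one_mul]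
  rw [← g4, mul_assoc (1 - c) G, GP, mul_assoc, mul_assoc, mul_assoc, ← mul_assoc G, g1, g2,
    mul_one]

end Fine

end H22N

open H22N in
theorem thinStep (hDec : SDec) (hPush : SPush) (hTT : STT) (hGood : SGood) (hUntw : SUntw)
    (hOrd : SOrd) (hConj : SConj) (hHT : SHT) : SThinStep := by
  intro k F _ _ _ _ Pt ι _ _ _ Q ht t hf hy h0 h Qu L hu hT hDG
  classical
  obtain ⟨t1, t2⟩ := hTT k F Pt ι Q ∅ ht hf hy
  obtain ⟨-, -, hsm, hmul, -⟩ := hUntw k F Pt ι Q ht hf (hGood k F Pt ι Q ∅ ht hf t1 t2)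
  obtain ⟨Λ, M, T, _, _, p, π, lab, grp, H⟩ :=
    exists_fine hDec hPush Q t h0 h Qu L hu hDG hsm hmul
  obtain ⟨l, hl, linj⟩ := H.exists_lab hf h0
  obtain ⟨c, hc, φ, hφ, φ', hφ', key⟩ := H.exists_col hf h0 hsm hl
  have cr : ∀ r : Matrix Pt Pt F, (∀ p, r t p = 0) → c * r = 0 := by
    intro r hr
    ext a b
    by_contra e
    obtain ⟨x, e1, e2⟩ := mul_ne e
    rw [(hc a x e1).1] at e2
    exact e2 (hr b)
  have ct : ∀ b, c t b = 0 := fun b => by
    by_contra e
    exact (hc t b e).2.1 rfl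
  have cc : c * c = 0 := cr c ct
  have g2 : (1 + c) * (1 - c) = 1 := by rw [mul_sub, mul_one, add_mul, one_mul, cc]; simp
  have g3 : (1 - c) * (1 + c) = 1 := by rw [mul_add, mul_one, sub_mul, one_mul, cc]; simp
  have gne : ∀ (s : F) q a, (1 + s • c) q a ≠ 0 → Q.vt q = Q.vt a ∧ ht a ≤ ht q := by
    intro s q a e
    by_cases e' : q = a
    · rw [e']; exact ⟨rfl, le_rfl⟩
    · rw [Matrix.add_apply, Matrix.one_apply_ne e', zero_add, Matrix.smul_apply] at e
      obtain ⟨rfl, h1, h2⟩ := hc q a (right_ne_zero_of_smul e)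
      exact ⟨h2, (t_min hf h0 h2 h1).le⟩
  have gp : ∀ q a, (1 + c) q a ≠ 0 → Q.vt q = Q.vt a ∧ ht a ≤ ht q := by
    simpa only [one_smul] using gne 1
  have gm : ∀ q a, (1 - c) q a ≠ 0 → Q.vt q = Q.vt a ∧ ht a ≤ ht q := by
    simpa only [neg_smul, one_smul, ← sub_eq_add_neg] using gne (-1)
  obtain ⟨Q', hcj⟩ := (hConj k F Pt ι Q).1 (1 + c) (1 - c) g2 g3 (fun q a e => (gp q a e).1)
    fun q a e => (gm q a e).1
  refine ⟨Q', _, _, hcj, fun q a e => (gp q a e).2, fun q a e => (gm q a e).2, ?_⟩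
  have hf' := ((hConj k F Pt ι Q).2 Q' _ _ hcj).2.2 ∅ ht (fun q a e _ => (gp q a e).2)
    (fun q a e _ => (gm q a e).2) hf
  have hy' : Hyp Q'.B := by
    refine hHT k F Pt Pt Q.B Q'.B _ _ g2 (fun b hb => (hcj.mem _).2 ?_) hy
    have : (1 - c) * ((1 + c) * b * (1 - c)) * (1 + c) =
        ((1 - c) * (1 + c)) * b * ((1 - c) * (1 + c)) := by simp only [Matrix.mul_assoc]
    rw [this, g3]
    simpa using hb
  have mc : ∀ (r : Matrix Pt Pt F) q a, a ≠ t → (r * c) q a = 0 := by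
    intro r q a ha
    by_contra e
    obtain ⟨x, -, e2⟩ := mul_ne e
    exact ha (hc x a e2).1
  have mcd : ∀ r : Matrix Pt Pt F, (∀ p, r t p = 0) → ∀ a, (r * c) a a = 0 := by
    intro r hr a
    by_cases ha : a = t
    · by_contra e
      obtain ⟨x, e1, -⟩ := mul_ne e
      exact e1 (ha ▸ hr x)
    · exact mc r a a ha
  have row' : ∀ b ∈ Q'.R0, ∀ a, b t a = 0 := by
    intro b hb a
    by_cases ha : a = t
    · rw [ha]; exact hb.2 t
    · have := row_zero h0 ((hcj.mem b).1 hb.1) ha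
      rw [mul_add, mul_one, Matrix.add_apply, mc _ _ _ ha, add_zero, sub_mul, one_mul,
        Matrix.sub_apply, Matrix.mul_apply] at this
      simpa [ct] using this
  have fw : ∀ b ∈ Q'.R0, b * (1 + c) ∈ Q.R0 := by
    intro b hb
    have := (hcj.mem b).1 hb.1
    rw [sub_mul, one_mul, cr b (row' b hb), sub_zero] at this
    exact ⟨this, fun a => by
      rw [mul_add, mul_one, Matrix.add_apply, hb.2, mcd b (row' b hb), add_zero]⟩
  have bw : ∀ r ∈ Q.R0, r * (1 - c) ∈ Q'.R0 := by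
    intro r hr
    refine ⟨(hcj.mem _).2 ?_, fun a => by
      rw [mul_sub, mul_one, Matrix.sub_apply, hr.2, mcd r (row_zero0 h0 hr), sub_zero]⟩
    rw [mul_assoc, mul_assoc, g3, mul_one, sub_mul, one_mul, cr r (row_zero0 h0 hr), sub_zero]
    exact hr.1
  have bw' : ∀ b, b * (1 + c) ∈ Q.R0 → b ∈ Q'.R0 := by
    intro b hb
    have := bw _ hb
    rwa [mul_assoc, g2, mul_one] at this
  have oc : ∀ b : Matrix Pt Pt F, (∀ q a, b q a ≠ 0 → Q.vt a ≠ Q.vt t) → b * (1 + c) = b := by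
    intro b hb
    have : b * c = 0 := by
      ext q a
      by_contra e
      obtain ⟨x, e1, e2⟩ := mul_ne e
      exact hb q x e1 (hc x a e2).2.2
    rw [mul_add, mul_one, this, add_zero]
  have o1 : ∀ b ∈ Q.R0, (∀ q a, b q a ≠ 0 → Q.vt a ≠ Q.vt t) → b ∈ Q'.R0 :=
    fun b hb ho => bw' b (by rwa [oc b ho])
  have o2 : ∀ b ∈ Q'.R0, (∀ q a, b q a ≠ 0 → Q.vt a ≠ Q.vt t) → b ∈ Q.R0 :=
    fun b hb ho => by rw [← oc b ho]; exact fw b hb
  have ex : ∀ q a, ∃ x : Option T, q ≠ t → Q.vt a = Q.vt t →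
      ∃ x', x = some x' ∧ π x' = q ∧ lab x' = l a := by
    intro q a
    by_cases e : q ≠ t ∧ Q.vt a = Q.vt t
    · obtain ⟨x, hx⟩ := H.lift q (l a) e.1 fun e' => by
        have := hl a e.2
        rw [e'] at this
        exact zero_ne_one this
      exact ⟨some x, fun _ _ => ⟨x, rfl, hx⟩⟩
    · exact ⟨none, fun h1 h2 => (e ⟨h1, h2⟩).elim⟩
  choose X hX using ex
  rw [hcj.vt]
  refine Cls.thin (t := t) (c := fun q a => (X q a).map grp)
    ⟨⟨Q'.B.zero_mem, fun _ => rfl⟩,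
      fun a ha b hb => ⟨Q'.B.add_mem ha.1 hb.1, fun p => by simp [ha.2 p, hb.2 p]⟩,
      fun s a ha => bw' _ (by rw [Matrix.smul_mul]; exact hsm s _ (fw a ha)), fun a ha b hb => ?_,
      fun a ha => ha.2, row', hf.three _ fun h => h, fun r hr => ?_,
      fun r hr a b e h1 h2 h3 h4 h5 => ?_, fun r hr m => ?_, ?_, ?_⟩
  · refine bw' _ ?_
    have : a * b * (1 + c) = (a * (1 + c)) * (b * (1 + c)) := by
      rw [mul_assoc a (1 + c), ← mul_assoc (1 + c), add_mul 1 c b, one_mul, cr b (row' b hb),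
        add_zero, mul_assoc]
    rw [this]
    exact (hmul _ (fw a ha) _ (fw b hb).1).1
  · have ho : ∀ q a, mask (fun _ a => Q.vt a ≠ Q.vt t) r q a ≠ 0 → Q.vt a ≠ Q.vt t :=
      fun q a e => (mask_ne e).1
    refine outer_span h0 h hT o1 (o2 _ ⟨?_, fun a => ?_⟩ ho) ho
    · have := out_mem hr.1 (Q.vt t)
      rwa [hcj.vt] at this
    · rw [mask_apply, hr.2, ite_self]
  · have ho : ∀ q x, r q x ≠ 0 → Q.vt x ≠ Q.vt t := by
      intro q x e'
      obtain rfl | rfl := h4 q x e'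
      · exact e
      · exact h1 ▸ e
    refine o1 _ (outer_mm h0 h hT (o2 r hr ho) a b e h1 h2 h3 h4 h5) fun q x e' => ?_
    have : a.2 = q ∧ a.1 = x := by
      by_contra e2
      exact e' (Matrix.single_apply_of_ne _ _ _ _ _ e2)
    exact this.2 ▸ e
  · have hq : ∀ q a, r q a ≠ 0 → q ≠ t := by
      rintro q a e rfl
      exact e (row' r hr a)
    rcases m with _ | m
    · have z0 : (0 : Matrix Pt Pt F) ∈ Q'.R0 := ⟨Q'.B.zero_mem, fun _ => rfl⟩
      convert z0 using 1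
      ext q a
      by_contra e
      obtain ⟨⟨h1, h2⟩, h3⟩ := mask_ne e
      obtain ⟨x, e1, -⟩ := hX q a (hq q a h3) h1
      simp [e1] at h2
    · obtain ⟨r', hr', e1, e2⟩ := H.part _ (hmul _ (fw r hr) _ hφ').1 m
      convert bw _ (hmul _ hr' _ hφ).1 using 1
      ext q a
      by_cases ex : ∃ x, grp x = m ∧ π x = q
      · obtain ⟨x, hx, rfl⟩ := ex
        have e3 : (r' * φ * (1 - c)) (π x) a =
            mask (fun _ a => Q.vt a = Q.vt t ∧ l a = lab x) r (π x) a := by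
          have : mask (fun _ a => Q.vt a = Q.vt t ∧ l a = lab x) r =
              r * (1 + c) * φ' * p (lab x) * (φ * (1 - c)) := by
            have := key (lab x)
            simp only [mul_assoc] at this ⊢
            rw [this, ← mul_assoc (1 + c), g2, one_mul, mul_mask]
          rw [this, mul_assoc r', Matrix.mul_apply_eq_vecMul, e1 x hx,
            ← Matrix.mul_apply_eq_vecMul]
        rw [e3, mask_apply, mask_apply]
        by_cases e4 : r (π x) a = 0
        · simp [e4]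
        by_cases va : Q.vt a = Q.vt t
        · obtain ⟨x', x1, x2, x3⟩ := hX _ a (hq _ _ e4) va
          simp only [va, true_and, x1, Option.map_some, Option.some.injEq]
          by_cases e5 : l a = lab x
          · obtain rfl := H.uniq x' x x2 (x3.trans e5)
            simp [hx, e5]
          · rw [if_neg e5, if_neg]
            intro e6
            obtain rfl := H.inj x' x (e6.trans hx.symm) x2
            exact e5 x3.symm
        · simp [va]
      · have e3 : (r' * φ * (1 - c)) q a = 0 := by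
          rw [mul_assoc, Matrix.mul_apply_eq_vecMul, e2 q fun x hx e => ex ⟨x, hx, e⟩,
            Matrix.zero_vecMul]
          rfl
        rw [e3]
        by_contra e
        obtain ⟨⟨h1, h2⟩, h3⟩ := mask_ne e
        obtain ⟨x, x1, x2, -⟩ := hX q a (hq q a h3) h1
        exact ex ⟨x, by simpa [x1] using h2, x2⟩
  · intro q a q' a' h1 h2 h3 h4 e
    obtain ⟨x, x1, rfl, x3⟩ := hX q a h1 h3
    obtain ⟨x', y1, rfl, y3⟩ := hX q' a' h2 h4
    simp only [x1, y1, Option.map_some, Option.some.injEq] at e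
    refine ⟨H.vt x x' e, fun e' => ?_, fun e' => ?_⟩
    · rw [H.dist x x' e (by rw [x3, y3, e'])]
    · obtain rfl := H.inj x x' e e'
      exact linj a a' h3 h4 (x3.symm.trans y3)
  · intro r hr x y hx hy2 vx vy ne e
    by_contra cn
    push Not at cn
    let v : Fin 3 → F := fun s => r (y s) (x s)
    have hv : v ≠ 0 := fun e' => e 0 (congrFun e' 0)
    let f : F →ₗ[k] (Fin 3 → F) := (LinearMap.toSpanSingleton F _ v).restrictScalars k
    have ar : ∀ s, Q'.Ar (x s) (y s) := fun s =>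
      ⟨fun e' => ne (by rw [← vy s, ← e', vx s]), r, hr.1, e s⟩
    have := (hTT k F Pt ι Q' ∅ ht hf' hy').2 (Q.vt t) (Q.vt (y 0)) x y ne.symm (fun h => h)
      (fun h => h) hx hy2 (fun s => by rw [hcj.vt]; exact vx s) (fun s => by rw [hcj.vt]; exact vy s)
      (fun s a => ((hOrd k F Pt ι Q' ∅ ht hf').2 _ _ _ (fun h => h) (fun h => h) (fun h => h)
        (ar s) a).1 rfl) (LinearMap.range f) fun b hb => ?_
    · exact absurd (LinearMap.finrank_range_le f) (not_le.2 this)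
    · have hm := Q'.blk_mem hb (Q.vt t) (Q.vt (y 0))
      obtain ⟨s, hs⟩ := cn _ ⟨hm.1, fun a => Q'.blk_neg _ fun h => ne (h.2.symm.trans h.1)⟩
      refine ⟨s, funext fun n => ?_⟩
      have := hs n
      rw [Q'.blk_pos _ (by rw [hcj.vt]; exact vx n) (by rw [hcj.vt]; exact vy n)] at this
      exact this.symm

end Pool.Agent.MP_bd94e8_al.H89
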